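import Pool.Agent.Q324.SC.SSE

set_option autoImplicit false

/-!
Elementary equivalences over arbitrary index types; a canonical positive connection to a dominating
component.
-/

namespace Pool.Agent.Q133.TR

open Pool.Agent.Q324.SC.Mat Matrix

/-- elementary equivalence of matrices over arbitrary index types -/
def El {ι κ : Type} [Fintype ι] [Fintype κ] (M : Matrix ι ι ℕ) (N : Matrix κ κ ℕ) : Prop :=
  ∃ (R : Matrix ι κ ℕ) (S : Matrix κ ι ℕ), M = R * S ∧ N = S * R

/-- the matrix as an object -/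
noncomputable def ob {ι : Type} [Fintype ι] (M : Matrix ι ι ℕ) : Obj :=
  ⟨Fintype.card ι, M.submatrix (Fintype.equivFin ι).symm (Fintype.equivFin ι).symm⟩

section el

variable {ι κ μ : Type} [Fintype ι] [Fintype κ] [Fintype μ]

theorem El.symm {M : Matrix ι ι ℕ} {N : Matrix κ κ ℕ} (h : El M N) : El N M := by
  obtain ⟨R, S, h1, h2⟩ := h
  exact ⟨S, R, h2, h1⟩

theorem El.of_equiv (e : ι ≃ κ) (M : Matrix κ κ ℕ) : El (M.submatrix e e) M := by
  classical
  refine ⟨M.submatrix e (Equiv.refl κ), (1 : Matrix κ κ ℕ).submatrix (Equiv.refl κ) e, ?_, ?_⟩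
  · rw [Matrix.submatrix_mul_equiv, mul_one]
  · rw [Matrix.submatrix_mul_equiv, one_mul]
    rfl

theorem El.elem {M : Matrix ι ι ℕ} {N : Matrix κ κ ℕ} (h : El M N) : Elem (ob M) (ob N) := by
  obtain ⟨R, S, h1, h2⟩ := h
  refine ⟨R.submatrix (Fintype.equivFin ι).symm (Fintype.equivFin κ).symm,
    S.submatrix (Fintype.equivFin κ).symm (Fintype.equivFin ι).symm, ?_, ?_⟩
  · have h3 := Matrix.submatrix_mul_equiv R S (Fintype.equivFin ι).symm
      (Fintype.equivFin κ).symm (Fintype.equivFin ι).symm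
    rw [← h1] at h3
    exact h3.symm
  · have h3 := Matrix.submatrix_mul_equiv S R (Fintype.equivFin κ).symm
      (Fintype.equivFin ι).symm (Fintype.equivFin κ).symm
    rw [← h2] at h3
    exact h3.symm

theorem El.tg {M : Matrix ι ι ℕ} {N : Matrix κ κ ℕ} (h : El M N) :
    Relation.TransGen Elem (ob M) (ob N) := .single h.elem

theorem el_ob (M : Matrix ι ι ℕ) : El (ob M).2 M := El.of_equiv (Fintype.equivFin ι).symm M

theorem ob_tg (X : Obj) : Relation.TransGen Elem (ob X.2) X := by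
  refine .single ?_
  obtain ⟨R, S, h1, h2⟩ := el_ob X.2
  exact ⟨R, S, h1, h2⟩

theorem El.transpose {M : Matrix ι ι ℕ} {N : Matrix κ κ ℕ} (h : El M N) : El Mᵀ Nᵀ := by
  obtain ⟨R, S, h1, h2⟩ := h
  exact ⟨Sᵀ, Rᵀ, by rw [h1, transpose_mul], by rw [h2, transpose_mul]⟩

theorem El.dsum {M : Matrix ι ι ℕ} {N : Matrix κ κ ℕ} (h : El M N) (P : Matrix μ μ ℕ) :
    El (fromBlocks M 0 0 P) (fromBlocks N 0 0 P) := by
  classical
  obtain ⟨R, S, h1, h2⟩ := h
  refine ⟨fromBlocks R 0 0 P, fromBlocks S 0 0 1, ?_, ?_⟩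
  · rw [fromBlocks_multiply, h1]
    simp
  · rw [fromBlocks_multiply, h2]
    simp

theorem El.swap (M : Matrix ι ι ℕ) (P : Matrix μ μ ℕ) :
    El (fromBlocks M 0 0 P) (fromBlocks P 0 0 M) := by
  have h := El.of_equiv (Equiv.sumComm ι μ) (fromBlocks P 0 0 M)
  have e : (fromBlocks P 0 0 M).submatrix (Equiv.sumComm ι μ) (Equiv.sumComm ι μ) =
      fromBlocks M 0 0 P := by
    ext x y
    rcases x with x | x <;> rcases y with y | y <;> rfl
  rwa [e] at h

end el

/-- the matrix `A` with positive connection `u` to a full `N`-shift -/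
def ex {ι : Type} (A : Matrix ι ι ℕ) (u : ι → ℕ) (N : ℕ) : Matrix (ι ⊕ Unit) (ι ⊕ Unit) ℕ :=
  fromBlocks A (of fun i _ => u i) 0 (of fun _ _ => N)

section steps

variable {ι κ : Type} [Fintype ι] [Fintype κ]

theorem step_R (R : Matrix ι κ ℕ) (S : Matrix κ ι ℕ) (y : κ → ℕ) (N : ℕ) :
    El (ex (R * S) (R *ᵥ y) N) (ex (S * R) y N) := by
  classical
  refine ⟨fromBlocks R 0 0 1, fromBlocks S (of fun j _ => y j) 0 (of fun _ _ => N), ?_, ?_⟩
  · unfold ex
    rw [fromBlocks_multiply]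
    refine fromBlocks_inj.2 ⟨?_, ?_, ?_, ?_⟩
    · simp
    · ext i j
      simp [Matrix.mul_apply, mulVec, dotProduct]
    · simp
    · simp
  · unfold ex
    rw [fromBlocks_multiply]
    simp

theorem step_N (A : Matrix ι ι ℕ) (u : ι → ℕ) (N : ℕ) :
    El (ex A u N) (ex A (fun i => N * u i) N) := by
  classical
  refine ⟨fromBlocks 1 0 0 (of fun _ _ => N), fromBlocks A (of fun i _ => u i) 0 1, ?_, ?_⟩
  · unfold ex
    rw [fromBlocks_multiply]
    simp
  · unfold ex
    rw [fromBlocks_multiply]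
    refine fromBlocks_inj.2 ⟨?_, ?_, ?_, ?_⟩
    · simp
    · ext i j
      simp [Matrix.mul_apply, mul_comm]
    · simp
    · simp

theorem step_Y (A : Matrix ι ι ℕ) (x y : ι → ℕ) (N : ℕ) :
    El (ex A (fun i => x i + N * y i) N) (ex A (fun i => x i + (A *ᵥ y) i) N) := by
  classical
  refine ⟨fromBlocks 1 (of fun i _ => y i) 0 1, fromBlocks A (of fun i _ => x i) 0
    (of fun _ _ => N), ?_, ?_⟩
  · unfold ex
    rw [fromBlocks_multiply]
    refine fromBlocks_inj.2 ⟨?_, ?_, ?_, ?_⟩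
    · simp
    · ext i j
      simp [Matrix.mul_apply, mul_comm]
    · simp
    · simp
  · unfold ex
    rw [fromBlocks_multiply]
    refine fromBlocks_inj.2 ⟨?_, ?_, ?_, ?_⟩
    · simp
    · ext i j
      simp [Matrix.mul_apply, mulVec, dotProduct, add_comm]
    · simp
    · simp

/-- a coboundary connection -/
structure Good (A : Matrix ι ι ℕ) [DecidableEq ι] (N : ℕ) (w u : ι → ℕ) : Prop where
  eq : ∀ i, u i + (A *ᵥ w) i = N * w i
  pos : ∀ i, 0 < w i → 0 < u i
  nil : ∃ k, ∀ i, w i = 0 → ∀ l, (A ^ k) i l = 0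

theorem Good.step [DecidableEq ι] [DecidableEq κ] {R : Matrix ι κ ℕ} {S : Matrix κ ι ℕ} {N : ℕ}
    {w u : ι → ℕ} (h : Good (R * S) N w u) : Good (S * R) N (S *ᵥ w) (S *ᵥ u) := by
  refine ⟨fun i => ?_, fun i hi => ?_, ?_⟩
  · have h1 : u + (R * S) *ᵥ w = fun i => N * w i := by
      funext i
      exact h.eq i
    have h2 : (S *ᵥ (u + (R * S) *ᵥ w)) i = (S *ᵥ fun i => N * w i) i := by rw [h1]
    rw [mulVec_add, mulVec_mulVec, ← Matrix.mul_assoc, ← mulVec_mulVec] at h2
    have h3 : (S *ᵥ fun i => N * w i) i = N * (S *ᵥ w) i := by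
      simp only [mulVec, dotProduct, Finset.mul_sum]
      exact Finset.sum_congr rfl fun j _ => by ring
    rw [h3] at h2
    exact h2
  · have h1 : ∃ j, 0 < S i j * w j := by
      by_contra hc
      push Not at hc
      have : (S *ᵥ w) i = 0 := Finset.sum_eq_zero fun j _ => Nat.le_zero.1 (hc j)
      omega
    obtain ⟨j, hj⟩ := h1
    have h2 : 0 < S i j := Nat.pos_of_mul_pos_right hj
    have h3 : 0 < w j := Nat.pos_of_mul_pos_left hj
    have h4 := h.pos j h3
    exact lt_of_lt_of_le (Nat.mul_pos h2 h4)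
      (Finset.single_le_sum (f := fun j => S i j * u j) (fun _ _ => Nat.zero_le _)
        (Finset.mem_univ j))
  · obtain ⟨k, hk⟩ := h.nil
    refine ⟨k + 1, fun i hi l => ?_⟩
    have e : ∀ k : ℕ, (S * R) ^ (k + 1) = S * (R * S) ^ k * R := by
      intro k
      induction k with
      | zero => simp
      | succ k ih =>
        rw [pow_succ, ih, pow_succ]
        simp only [Matrix.mul_assoc]
    rw [e, Matrix.mul_apply]
    refine Finset.sum_eq_zero fun j _ => ?_
    have h5 : (S * (R * S) ^ k) i j = 0 := by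
      rw [Matrix.mul_apply]
      refine Finset.sum_eq_zero fun t _ => ?_
      rcases Nat.eq_zero_or_pos (S i t) with h0 | h0
      · rw [h0, zero_mul]
      · have hw : w t = 0 := by
          by_contra hne
          have h6 : 0 < S i t * w t := Nat.mul_pos h0 (Nat.pos_of_ne_zero hne)
          have h7 : S i t * w t ≤ (S *ᵥ w) i :=
            Finset.single_le_sum (f := fun j => S i j * w j) (fun _ _ => Nat.zero_le _)
              (Finset.mem_univ t)
          omega
        rw [hk t hw j, mul_zero]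
    rw [h5, zero_mul]

theorem one [DecidableEq ι] [DecidableEq κ] {N : ℕ} {A : Matrix ι ι ℕ} {B : Matrix κ κ ℕ}
    (h : El A B) (w u : ι → ℕ) (hg : Good A N w u) :
    ∃ w' u', Good B N w' u' ∧ Relation.TransGen Elem (ob (ex A u N)) (ob (ex B u' N)) := by
  obtain ⟨R, S, rfl, rfl⟩ := h
  refine ⟨S *ᵥ w, S *ᵥ u, hg.step, ?_⟩
  have h4 := (step_R (R * S) (1 : Matrix ι ι ℕ) u N).tg
  rw [Matrix.mul_one, Matrix.one_mul, ← mulVec_mulVec] at h4
  exact (tg_symm h4).trans (step_R R S (S *ᵥ u) N).tg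

/-- the connection may be carried along a strong shift equivalence -/
theorem chain {N : ℕ} {X Y : Obj} (h : Relation.TransGen Elem X Y) (w u : Fin X.1 → ℕ)
    (hg : Good X.2 N w u) :
    ∃ w' u', Good Y.2 N w' u' ∧ Relation.TransGen Elem (ob (ex X.2 u N)) (ob (ex Y.2 u' N)) := by
  induction h with
  | single h => exact one h w u hg
  | tail _ h ih =>
    obtain ⟨w1, u1, hg1, ht1⟩ := ih
    obtain ⟨w2, u2, hg2, ht2⟩ := one h w1 u1 hg1
    exact ⟨w2, u2, hg2, ht1.trans ht2⟩

end steps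

end Pool.Agent.Q133.TR
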