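import Pool.Agent.Q133.TR.Base

set_option autoImplicit false

/-!
The class of the matrix with a coboundary connection does not depend on the coboundary.
-/

namespace Pool.Agent.Q133.TR

open Pool.Agent.Q324.SC.Mat Matrix

variable {ι : Type} [Fintype ι] [DecidableEq ι]

theorem mulVec_mono (A : Matrix ι ι ℕ) {v w : ι → ℕ} (h : ∀ i, v i ≤ w i) (i : ι) :
    (A *ᵥ v) i ≤ (A *ᵥ w) i :=
  Finset.sum_le_sum fun j _ => Nat.mul_le_mul_left _ (h j)

theorem eq_of_fix {A : Matrix ι ι ℕ} {N : ℕ} {w u v : ι → ℕ} (hN : 0 < N)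
    (hg : Good A N w u) (hbig : ∀ i, 0 < w i → N ≤ u i) (hwv : ∀ i, w i ≤ v i)
    (hfix : ∀ i, v i = w i ∨ N * v i ≤ (A *ᵥ v) i + (N - 1)) : ∀ i, v i = w i := by
  classical
  -- outside the support of `w`
  have hα : ∀ i, w i = 0 → v i = 0 := by
    intro i0 hi0
    by_contra hne
    obtain ⟨k, hk⟩ := hg.nil
    have step : ∀ i, w i = 0 → v i ≠ 0 → ∃ j, 0 < A i j ∧ w j = 0 ∧ v j ≠ 0 := by
      intro i hi hv
      have h1 := (hfix i).resolve_left (by rw [hi]; exact hv)
      have h2 : 0 < (A *ᵥ v) i := by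
        by_contra hc
        have h3 : (A *ᵥ v) i = 0 := by omega
        rw [h3, zero_add] at h1
        have h4 : N * 1 ≤ N * v i := Nat.mul_le_mul_left _ (Nat.pos_of_ne_zero hv)
        omega
      have h5 : ∃ j, 0 < A i j * v j := by
        by_contra hc
        push Not at hc
        have : (A *ᵥ v) i = 0 := Finset.sum_eq_zero fun j _ => Nat.le_zero.1 (hc j)
        omega
      obtain ⟨j, hj⟩ := h5
      have h6 : 0 < A i j := Nat.pos_of_mul_pos_right hj
      have h7 : 0 < v j := Nat.pos_of_mul_pos_left hj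
      refine ⟨j, h6, ?_, by omega⟩
      have h8 := hg.eq i
      rw [hi, mul_zero] at h8
      by_contra hw
      have h9 : A i j * w j ≤ (A *ᵥ w) i :=
        Finset.single_le_sum (f := fun j => A i j * w j) (fun _ _ => Nat.zero_le _)
          (Finset.mem_univ j)
      have h10 : 0 < A i j * w j := Nat.mul_pos h6 (Nat.pos_of_ne_zero hw)
      omega
    have all : ∀ k : ℕ, ∀ i, w i = 0 → v i ≠ 0 → ∃ l, 0 < (A ^ k) i l := by
      intro k
      induction k with
      | zero => intro i _ _; exact ⟨i, by simp⟩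
      | succ k ih =>
        intro i hi hv
        obtain ⟨j, h1, h2, h3⟩ := step i hi hv
        obtain ⟨l, hl⟩ := ih j h2 h3
        refine ⟨l, ?_⟩
        rw [pow_succ', Matrix.mul_apply]
        exact lt_of_lt_of_le (Nat.mul_pos h1 hl)
          (Finset.single_le_sum (f := fun j => A i j * (A ^ k) j l) (fun _ _ => Nat.zero_le _)
            (Finset.mem_univ j))
    obtain ⟨l, hl⟩ := all k i0 hi0 hne
    rw [hk i0 hi0 l] at hl
    exact lt_irrefl _ hl
  -- a maximal ratio
  by_contra hcon
  push Not at hcon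
  obtain ⟨i1, hi1⟩ := hcon
  have hpos : ∀ i, v i ≠ w i → 0 < w i := by
    intro i hi
    by_contra hc
    have h0 : w i = 0 := by omega
    exact hi (by rw [hα i h0, h0])
  obtain ⟨i, hiT, hmax⟩ := Finset.exists_max_image
    (Finset.univ.filter fun i => v i ≠ w i)
    (fun i => ((v i - w i : ℕ) : ℚ) / w i) ⟨i1, by simpa using hi1⟩
  have hi : v i ≠ w i := by simpa using hiT
  have hwi := hpos i hi
  have hd : ∀ j, (v j - w j) * w i ≤ (v i - w i) * w j := by
    intro j
    by_cases hj : v j = w j
    · rw [hj, Nat.sub_self, zero_mul]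
      exact Nat.zero_le _
    · have h1 := hmax j (by simpa using hj)
      have hwj := hpos j hj
      rw [div_le_div_iff₀ (by exact_mod_cast hwj) (by exact_mod_cast hwi)] at h1
      exact_mod_cast h1
  have h1 := (hfix i).resolve_left hi
  have h2 := hg.eq i
  have h3 := hbig i hwi
  have h4 : (A *ᵥ v) i = (A *ᵥ w) i + (A *ᵥ fun j => v j - w j) i := by
    simp only [mulVec, dotProduct]
    rw [← Finset.sum_add_distrib]
    refine Finset.sum_congr rfl fun j _ => ?_
    rw [← Nat.mul_add, Nat.add_sub_cancel' (hwv j)]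
  have h5 : (A *ᵥ fun j => v j - w j) i * w i ≤ (v i - w i) * (A *ᵥ w) i := by
    simp only [mulVec, dotProduct]
    rw [Finset.sum_mul, Finset.mul_sum]
    refine Finset.sum_le_sum fun j _ => ?_
    calc A i j * (v j - w j) * w i = A i j * ((v j - w j) * w i) := by ring
      _ ≤ A i j * ((v i - w i) * w j) := Nat.mul_le_mul_left _ (hd j)
      _ = (v i - w i) * (A i j * w j) := by ring
  have h6 : N * (v i - w i) < (A *ᵥ fun j => v j - w j) i := by
    have h7 : N * v i = N * w i + N * (v i - w i) := by
      rw [← Nat.mul_add, Nat.add_sub_cancel' (hwv i)]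
    omega
  have h8 : (v i - w i) * (A *ᵥ w) i ≤ (v i - w i) * (N * w i) :=
    Nat.mul_le_mul_left _ (by omega)
  have h9 : N * (v i - w i) * w i < (A *ᵥ fun j => v j - w j) i * w i :=
    Nat.mul_lt_mul_of_pos_right h6 hwi
  have h10 : (v i - w i) * (N * w i) = N * (v i - w i) * w i := by ring
  omega

theorem descend {A : Matrix ι ι ℕ} {N : ℕ} {w u : ι → ℕ} (hN : 0 < N)
    (hg : Good A N w u) (hbig : ∀ i, 0 < w i → N ≤ u i) : ∀ (s : ℕ) (v t : ι → ℕ),
    (∀ i, t i + (A *ᵥ v) i = N * v i) → (∀ i, w i ≤ v i) → ∑ i, v i ≤ s →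
      Relation.TransGen Elem (ob (ex A t N)) (ob (ex A u N)) := by
  intro s
  induction s with
  | zero =>
    intro v t ht hwv hs
    have h0 : ∀ i, v i = 0 := fun i => by
      have := Finset.single_le_sum (f := v) (fun _ _ => Nat.zero_le _) (Finset.mem_univ i)
      omega
    have h1 : v = w := by
      funext i
      have := hwv i
      rw [h0 i] at this ⊢
      omega
    have h2 : t = u := by
      funext i
      have h3 := ht i
      have h4 := hg.eq i
      rw [h1] at h3
      omega
    rw [h2]
    exact .single (Elem.refl _)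
  | succ s ih =>
    intro v t ht hwv hs
    let y : ι → ℕ := fun i => max (w i) (((A *ᵥ v) i + (N - 1)) / N)
    have hyv : ∀ i, y i ≤ v i := by
      intro i
      refine max_le (hwv i) ?_
      refine Nat.lt_succ_iff.1 (Nat.div_lt_of_lt_mul ?_)
      have := ht i
      rw [Nat.mul_succ]
      omega
    have hNy : ∀ i, (A *ᵥ v) i ≤ N * y i := by
      intro i
      have h1 : ((A *ᵥ v) i + (N - 1)) / N ≤ y i := le_max_right _ _
      have h2 := Nat.div_add_mod ((A *ᵥ v) i + (N - 1)) N
      have h3 := Nat.mod_lt ((A *ᵥ v) i + (N - 1)) hN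
      have h4 : N * (((A *ᵥ v) i + (N - 1)) / N) ≤ N * y i := Nat.mul_le_mul_left _ h1
      omega
    have hAy : ∀ i, (A *ᵥ y) i ≤ (A *ᵥ v) i := mulVec_mono A hyv
    by_cases hv : ∀ i, y i = v i
    · -- a fixed point
      have hfix : ∀ i, v i = w i ∨ N * v i ≤ (A *ᵥ v) i + (N - 1) := by
        intro i
        rcases le_total (w i) (((A *ᵥ v) i + (N - 1)) / N) with h | h
        · right
          have h1 : y i = ((A *ᵥ v) i + (N - 1)) / N := max_eq_right h
          rw [← hv i, h1]
          exact Nat.mul_div_le _ _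
        · left
          rw [← hv i]
          exact max_eq_left h
      have h1 : v = w := funext (eq_of_fix hN hg hbig hwv hfix)
      have h2 : t = u := by
        funext i
        have h3 := ht i
        have h4 := hg.eq i
        rw [h1] at h3
        omega
      rw [h2]
      exact .single (Elem.refl _)
    · push Not at hv
      obtain ⟨i0, hi0⟩ := hv
      have hlt : ∑ i, y i < ∑ i, v i :=
        Finset.sum_lt_sum (fun i _ => hyv i) ⟨i0, Finset.mem_univ _, lt_of_le_of_ne (hyv i0) hi0⟩
      have h1 := ih y (fun i => N * y i - (A *ᵥ y) i) (fun i => by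
        have := hNy i
        have := hAy i
        omega) (fun i => le_max_left _ _) (by omega)
      have h2 := (step_Y A (fun i => N * y i - (A *ᵥ v) i) (fun i => v i - y i) N).tg
      have e1 : (fun i => N * y i - (A *ᵥ v) i + N * (v i - y i)) = t := by
        funext i
        have h3 := ht i
        have h4 := hNy i
        have h5 : N * v i = N * y i + N * (v i - y i) := by
          rw [← Nat.mul_add, Nat.add_sub_cancel' (hyv i)]
        omega
      have e2 : (fun i => N * y i - (A *ᵥ v) i + (A *ᵥ fun i => v i - y i) i) =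
          fun i => N * y i - (A *ᵥ y) i := by
        funext i
        have h4 := hNy i
        have h5 : (A *ᵥ v) i = (A *ᵥ y) i + (A *ᵥ fun j => v j - y j) i := by
          simp only [mulVec, dotProduct]
          rw [← Finset.sum_add_distrib]
          refine Finset.sum_congr rfl fun j _ => ?_
          rw [← Nat.mul_add, Nat.add_sub_cancel' (hyv j)]
        omega
      rw [e1, e2] at h2
      exact h2.trans h1

theorem canon {A : Matrix ι ι ℕ} {N : ℕ} {w u w' u' : ι → ℕ} (hN : 0 < N)
    (hg : Good A N w u) (hg' : Good A N w' u') :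
    Relation.TransGen Elem (ob (ex A u N)) (ob (ex A u' N)) := by
  have hmul : ∀ (w : ι → ℕ) (i : ι), (A *ᵥ fun i => N * w i) i = N * (A *ᵥ w) i := by
    intro w i
    simp only [mulVec, dotProduct, Finset.mul_sum]
    exact Finset.sum_congr rfl fun j _ => by ring
  have sc : ∀ {w u : ι → ℕ}, Good A N w u → Good A N (fun i => N * w i) (fun i => N * u i) := by
    intro w u h
    refine ⟨fun i => ?_, fun i hi => ?_, ?_⟩
    · rw [hmul, ← Nat.mul_add, h.eq]
    · exact Nat.mul_pos hN (h.pos i (Nat.pos_of_mul_pos_left hi))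
    · obtain ⟨k, hk⟩ := h.nil
      exact ⟨k, fun i hi => hk i ((Nat.mul_eq_zero.1 hi).resolve_left (by omega))⟩
  have big : ∀ {w u : ι → ℕ}, Good A N w u → ∀ i, 0 < N * w i → N ≤ N * u i := by
    intro w u h i hi
    have h1 := h.pos i (Nat.pos_of_mul_pos_left hi)
    exact Nat.le_mul_of_pos_right _ h1
  let v : ι → ℕ := fun i => N * w i + N * w' i
  let t : ι → ℕ := fun i => N * u i + N * u' i
  have ht : ∀ i, t i + (A *ᵥ v) i = N * v i := by
    intro i
    have h1 : (A *ᵥ v) i = (A *ᵥ fun i => N * w i) i + (A *ᵥ fun i => N * w' i) i := by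
      have : v = (fun i => N * w i) + fun i => N * w' i := rfl
      rw [this, mulVec_add]
      rfl
    have h2 := (sc hg).eq i
    have h3 := (sc hg').eq i
    rw [h1]
    show N * u i + N * u' i + _ = N * (N * w i + N * w' i)
    rw [Nat.mul_add N (N * w i)]
    omega
  have h1 := descend hN (sc hg) (big hg) _ v t ht (fun i => Nat.le_add_right _ _) le_rfl
  have h2 := descend hN (sc hg') (big hg') _ v t ht (fun i => Nat.le_add_left _ _) le_rfl
  exact ((step_N A u N).tg.trans (tg_symm h1)).trans (h2.trans (tg_symm (step_N A u' N).tg))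

end Pool.Agent.Q133.TR
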