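import Pool.Agent.Q133.TR.Main

set_option autoImplicit false

/-!
Extensions `[[A, u], [0, N]]`: the sufficient condition.
-/

namespace Pool.Agent.Q133.TR

open Pool.Agent.Q324.SC.Mat Matrix

/-- `s` is the product of the matrices `S` along a chain of elementary equivalences which starts with
`A` and ends with the second matrix -/
inductive PG {ι : Type} [Fintype ι] (A : Matrix ι ι ℕ) :
    (κ : Type) → [Fintype κ] → Matrix κ κ ℕ → Matrix κ ι ℕ → Prop
  | one (κ : Type) [Fintype κ] (R : Matrix ι κ ℕ) (S : Matrix κ ι ℕ) (h : A = R * S) :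
      PG A κ (S * R) S
  | tail (κ μ : Type) [Fintype κ] [Fintype μ] (R : Matrix κ μ ℕ) (S : Matrix μ κ ℕ)
      (s : Matrix κ ι ℕ) (h : PG A κ (R * S) s) : PG A μ (S * R) (S * s)

/-- congruence modulo the image of `N - M` -/
def Cong {κ : Type} [Fintype κ] (N : ℕ) (M : Matrix κ κ ℕ) (a b : κ → ℕ) : Prop :=
  ∃ w : κ → ℤ, ∀ i, (a i : ℤ) - b i = N * w i - ∑ j, (M i j : ℤ) * w j

section

variable {ι κ : Type} [Fintype ι] [Fintype κ]

theorem step_r (A : Matrix ι ι ℕ) (u : ι → ℕ) (N r q : ℕ) (h : r * q = N) :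
    El (ex A u N) (ex A (fun i => r * u i) N) := by
  classical
  refine ⟨fromBlocks 1 0 0 (of fun _ _ => r), fromBlocks A (of fun i _ => u i) 0
    (of fun _ _ => q), ?_, ?_⟩
  · unfold ex
    rw [fromBlocks_multiply]
    refine fromBlocks_inj.2 ⟨?_, ?_, ?_, ?_⟩
    · simp
    · simp
    · simp
    · ext i j
      simp [Matrix.mul_apply, h]
  · unfold ex
    rw [fromBlocks_multiply]
    refine fromBlocks_inj.2 ⟨?_, ?_, ?_, ?_⟩
    · simp
    · ext i j
      simp [Matrix.mul_apply, mul_comm]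
    · simp
    · ext i j
      simp [Matrix.mul_apply, ← h, mul_comm]

theorem scale (A : Matrix ι ι ℕ) (N : ℕ) (hN : 0 < N) : ∀ (l r : ℕ) (u : ι → ℕ), r ∣ N ^ l →
    Relation.TransGen Elem (ob (ex A u N)) (ob (ex A (fun i => r * u i) N)) := by
  intro l
  induction l with
  | zero =>
    intro r u h
    have h1 : r = 1 := Nat.dvd_one.1 (by simpa using h)
    subst h1
    simp only [one_mul]
    exact .single (Elem.refl _)
  | succ l ih =>
    intro r u h
    have hg : 0 < Nat.gcd r N := Nat.gcd_pos_of_pos_right _ hN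
    obtain ⟨r', hr'⟩ := Nat.gcd_dvd_left r N
    obtain ⟨q', hq'⟩ := Nat.gcd_dvd_right r N
    have hco : Nat.Coprime r' q' := by
      have h1 : r' = r / Nat.gcd r N := by
        rw [Nat.eq_div_iff_mul_eq_left hg.ne' (Nat.gcd_dvd_left r N), mul_comm]
        exact hr'
      have h2 : q' = N / Nat.gcd r N := by
        rw [Nat.eq_div_iff_mul_eq_left hg.ne' (Nat.gcd_dvd_right r N), mul_comm]
        exact hq'
      rw [h1, h2]
      exact Nat.coprime_div_gcd_div_gcd hg
    have h3 : r' ∣ N ^ l := by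
      have h4 : Nat.gcd r N * r' ∣ Nat.gcd r N * (q' * N ^ l) := by
        rw [← hr', ← mul_assoc, ← hq', ← pow_succ']
        exact h
      exact hco.dvd_of_dvd_mul_left (Nat.dvd_of_mul_dvd_mul_left hg h4)
    have h5 := ih r' (fun i => Nat.gcd r N * u i) h3
    have h6 := (step_r A u N (Nat.gcd r N) q' hq'.symm).tg
    have e : (fun i => r' * (Nat.gcd r N * u i)) = fun i => r * u i := by
      funext i
      rw [← mul_assoc, mul_comm r', ← hr']
    rw [e] at h5
    exact h6.trans h5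

/-- positive columns which are congruent give strong shift equivalent matrices -/
theorem interp (A : Matrix ι ι ℕ) (N : ℕ) (hN : 2 ≤ N) (u u' : ι → ℕ) (hu : ∀ i, 0 < u i)
    (hu' : ∀ i, 0 < u' i) (h : Cong N A u u') :
    Relation.TransGen Elem (ob (ex A u N)) (ob (ex A u' N)) := by
  classical
  obtain ⟨w, hw⟩ := h
  let w1 : ι → ℕ := fun i => (w i).toNat
  let w2 : ι → ℕ := fun i => (-w i).toNat
  have hw12 : ∀ i, w i = (w1 i : ℤ) - w2 i := by
    intro i
    simp only [w1, w2]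
    omega
  have hid : ∀ i, u i + N * w2 i + (A *ᵥ w1) i = u' i + N * w1 i + (A *ᵥ w2) i := by
    intro i
    have h1 := hw i
    have h2 : ∑ j, (A i j : ℤ) * w j = ((A *ᵥ w1) i : ℤ) - ((A *ᵥ w2) i : ℤ) := by
      simp only [mulVec, dotProduct]
      push_cast
      rw [← Finset.sum_sub_distrib]
      refine Finset.sum_congr rfl fun j _ => ?_
      rw [hw12 j]
      ring
    rw [h2, hw12 i] at h1
    have h3 : ((u i + N * w2 i + (A *ᵥ w1) i : ℕ) : ℤ) =
        ((u' i + N * w1 i + (A *ᵥ w2) i : ℕ) : ℤ) := by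
      push_cast
      linarith
    exact_mod_cast h3
  let c : ι → ℕ := fun i => N * w1 i + (A *ᵥ w2) i
  obtain ⟨s, hs⟩ : ∃ s, s = ∑ i, c i := ⟨_, rfl⟩
  have hcs : ∀ i, c i ≤ N ^ s := by
    intro i
    have h1 : c i ≤ s := by
      rw [hs]
      exact Finset.single_le_sum (f := c) (fun _ _ => Nat.zero_le _) (Finset.mem_univ i)
    exact h1.trans ((Nat.lt_two_pow_self (n := s)).le.trans (Nat.pow_le_pow_left hN s))
  obtain ⟨T, hT⟩ : ∃ T, T = N ^ s := ⟨_, rfl⟩
  have main : ∀ t, t ≤ T → Relation.TransGen Elem (ob (ex A (fun i => T * u i) N))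
      (ob (ex A (fun i => (T - t) * u i + t * u' i) N)) := by
    intro t
    induction t with
    | zero =>
      intro _
      simp only [Nat.sub_zero, zero_mul, add_zero]
      exact .single (Elem.refl _)
    | succ t ih =>
      intro ht
      have h1 := ih (by omega)
      have hU : ∀ i, c i ≤ (T - t) * u i + t * u' i := by
        intro i
        have h2 : T - t ≤ (T - t) * u i := Nat.le_mul_of_pos_right _ (hu i)
        have h3 : t ≤ t * u' i := Nat.le_mul_of_pos_right _ (hu' i)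
        have h4 := hcs i
        omega
      -- the first move
      have h2 := (step_Y A (fun i => (T - t) * u i + t * u' i - N * w1 i) w1 N).tg
      have h3 := (step_Y A (fun i => (T - t) * u i + t * u' i - N * w1 i + (A *ᵥ w1) i -
        (A *ᵥ w2) i) w2 N).tg
      have e1 : (fun i => (T - t) * u i + t * u' i - N * w1 i + N * w1 i) =
          fun i => (T - t) * u i + t * u' i := by
        funext i
        have := hU i
        have h5 : c i = N * w1 i + (A *ᵥ w2) i := rfl
        omega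
      have e2 : (fun i => (T - t) * u i + t * u' i - N * w1 i + (A *ᵥ w1) i - (A *ᵥ w2) i +
          (A *ᵥ w2) i) = fun i => (T - t) * u i + t * u' i - N * w1 i + (A *ᵥ w1) i := by
        funext i
        have := hU i
        have h5 : c i = N * w1 i + (A *ᵥ w2) i := rfl
        omega
      have e3 : (fun i => (T - t) * u i + t * u' i - N * w1 i + (A *ᵥ w1) i - (A *ᵥ w2) i +
          N * w2 i) = fun i => (T - (t + 1)) * u i + (t + 1) * u' i := by
        funext i
        have h4 := hU i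
        have h5 : c i = N * w1 i + (A *ᵥ w2) i := rfl
        have h6 := hid i
        have h7 : (T - t) * u i = (T - (t + 1)) * u i + u i := by
          have : T - t = T - (t + 1) + 1 := by omega
          rw [this, Nat.add_mul, one_mul]
        have h8 : (t + 1) * u' i = t * u' i + u' i := by rw [Nat.add_mul, one_mul]
        omega
      rw [e1] at h2
      rw [e2, e3] at h3
      exact h1.trans (h2.trans (tg_symm h3))
  have h1 := main T le_rfl
  simp only [Nat.sub_self, zero_mul, zero_add] at h1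
  have h2 := scale A N (by omega) s T u (by rw [hT])
  have h3 := scale A N (by omega) s T u' (by rw [hT])
  exact h2.trans (h1.trans (tg_symm h3))

/-- one elementary equivalence, with positive columns -/
theorem pos_step (N : ℕ) (hN : 2 ≤ N) (R : Matrix ι κ ℕ) (S : Matrix κ ι ℕ) (u : ι → ℕ)
    (hu : ∀ i, 0 < u i) : ∃ (u1 : κ → ℕ) (k : ℕ), (∀ i, 0 < u1 i) ∧
      Cong N (S * R) u1 (fun i => N ^ k * (S *ᵥ u) i) ∧
      Relation.TransGen Elem (ob (ex (R * S) u N)) (ob (ex (S * R) u1 N)) := by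
  classical
  let B := S * R
  let v : κ → ℕ := S *ᵥ u
  let y : κ → ℕ := fun i => if v i = 0 then 1 else 0
  obtain ⟨k, hk⟩ : ∃ k, k = ∑ i, ∑ j, B i j := ⟨_, rfl⟩
  have hB0 : ∀ i, v i = 0 → ∀ j, B i j = 0 := by
    intro i hi j
    have h1 : ∀ t, S i t = 0 := by
      intro t
      by_contra hne
      have h2 : S i t * u t ≤ v i :=
        Finset.single_le_sum (f := fun t => S i t * u t) (fun _ _ => Nat.zero_le _)
          (Finset.mem_univ t)
      have h3 : 0 < S i t * u t := Nat.mul_pos (Nat.pos_of_ne_zero hne) (hu t)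
      omega
    show (S * R) i j = 0
    rw [Matrix.mul_apply]
    exact Finset.sum_eq_zero fun t _ => by rw [h1 t, zero_mul]
  have hBy : ∀ i, (B *ᵥ y) i ≤ k := by
    intro i
    have h1 : (B *ᵥ y) i ≤ ∑ j, B i j := by
      refine Finset.sum_le_sum fun j _ => ?_
      by_cases h : v j = 0
      · simp [y, h]
      · simp [y, h]
    refine h1.trans ?_
    rw [hk]
    exact Finset.single_le_sum (f := fun i => ∑ j, B i j) (fun _ _ => Nat.zero_le _)
      (Finset.mem_univ i)
  have hkN : k < N ^ k := (Nat.lt_two_pow_self (n := k)).trans_le (Nat.pow_le_pow_left hN k)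
  have hle : ∀ i, (B *ᵥ y) i ≤ N ^ k * v i := by
    intro i
    by_cases h : v i = 0
    · have h1 : (B *ᵥ y) i = 0 := Finset.sum_eq_zero fun j _ => by
        show B i j * y j = 0
        rw [hB0 i h j, zero_mul]
      rw [h1]
      exact Nat.zero_le _
    · have h2 : N ^ k ≤ N ^ k * v i := Nat.le_mul_of_pos_right _ (Nat.pos_of_ne_zero h)
      have := hBy i
      omega
  refine ⟨fun i => N ^ k * v i - (B *ᵥ y) i + N * y i, k, fun i => ?_, ?_, ?_⟩
  · show 0 < N ^ k * v i - (B *ᵥ y) i + N * y i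
    by_cases h : v i = 0
    · have : y i = 1 := by simp [y, h]
      rw [this]
      omega
    · have h2 : N ^ k ≤ N ^ k * v i := Nat.le_mul_of_pos_right _ (Nat.pos_of_ne_zero h)
      have := hBy i
      omega
  · refine ⟨fun i => (y i : ℤ), fun i => ?_⟩
    have h1 := hle i
    have h2 : ((N ^ k * v i - (B *ᵥ y) i : ℕ) : ℤ) = ((N ^ k * v i : ℕ) : ℤ) - ((B *ᵥ y) i : ℤ) := by
      rw [Nat.cast_sub h1]
    have h3 : ((B *ᵥ y) i : ℤ) = ∑ j, (B i j : ℤ) * (y j : ℤ) := by
      simp only [mulVec, dotProduct]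
      push_cast
      rfl
    rw [Nat.cast_add, h2, h3]
    push_cast
    ring
  · have h4 := (step_R (R * S) (1 : Matrix ι ι ℕ) u N).tg
    rw [Matrix.mul_one, Matrix.one_mul, ← mulVec_mulVec] at h4
    have h5 := (tg_symm h4).trans (step_R R S (S *ᵥ u) N).tg
    have h6 := scale B N (by omega) k (N ^ k) v dvd_rfl
    have h7 := (step_Y B (fun i => N ^ k * v i - (B *ᵥ y) i) y N).tg
    have e1 : (fun i => N ^ k * v i - (B *ᵥ y) i + (B *ᵥ y) i) = fun i => N ^ k * v i := by
      funext i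
      have := hle i
      omega
    rw [e1] at h7
    exact h5.trans (h6.trans (tg_symm h7))

theorem Cong.trans {N : ℕ} {M : Matrix κ κ ℕ} {a b c : κ → ℕ} (h1 : Cong N M a b)
    (h2 : Cong N M b c) : Cong N M a c := by
  obtain ⟨w, hw⟩ := h1
  obtain ⟨w', hw'⟩ := h2
  refine ⟨w + w', fun i => ?_⟩
  have e1 := hw i
  have e2 := hw' i
  simp only [Pi.add_apply, mul_add, Finset.sum_add_distrib]
  linarith

theorem Cong.symm {N : ℕ} {M : Matrix κ κ ℕ} {a b : κ → ℕ} (h1 : Cong N M a b) :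
    Cong N M b a := by
  obtain ⟨w, hw⟩ := h1
  refine ⟨-w, fun i => ?_⟩
  have e1 := hw i
  simp only [Pi.neg_apply, mul_neg, Finset.sum_neg_distrib]
  linarith

theorem Cong.smul {N : ℕ} {M : Matrix κ κ ℕ} {a b : κ → ℕ} (h1 : Cong N M a b) (r : ℕ) :
    Cong N M (fun i => r * a i) (fun i => r * b i) := by
  obtain ⟨w, hw⟩ := h1
  refine ⟨fun i => r * w i, fun i => ?_⟩
  have e1 := hw i
  have e2 : ∑ j, (M i j : ℤ) * ((r : ℤ) * w j) = r * ∑ j, (M i j : ℤ) * w j := by
    rw [Finset.mul_sum]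
    exact Finset.sum_congr rfl fun j _ => by ring
  rw [e2]
  push_cast
  linear_combination (r : ℤ) * e1

/-- congruences are carried by `S` -/
theorem Cong.map {N : ℕ} {R : Matrix ι κ ℕ} {S : Matrix κ ι ℕ} {a b : ι → ℕ}
    (h : Cong N (R * S) a b) : Cong N (S * R) (S *ᵥ a) (S *ᵥ b) := by
  obtain ⟨w, hw⟩ := h
  refine ⟨fun i => ∑ t, (S i t : ℤ) * w t, fun i => ?_⟩
  have e1 : ((S *ᵥ a) i : ℤ) - ((S *ᵥ b) i : ℤ) = ∑ t, (S i t : ℤ) * ((a t : ℤ) - b t) := by
    simp only [mulVec, dotProduct]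
    push_cast
    rw [← Finset.sum_sub_distrib]
    exact Finset.sum_congr rfl fun t _ => by ring
  rw [e1]
  have e2 : ∑ t, (S i t : ℤ) * ((a t : ℤ) - b t) =
      N * ∑ t, (S i t : ℤ) * w t - ∑ t, (S i t : ℤ) * ∑ j, ((R * S) t j : ℤ) * w j := by
    rw [Finset.mul_sum, ← Finset.sum_sub_distrib]
    refine Finset.sum_congr rfl fun t _ => ?_
    rw [hw t]
    ring
  rw [e2]
  congr 1
  -- `S (R S) = (S R) S`
  simp only [Matrix.mul_apply]
  push_cast
  simp only [Finset.mul_sum, Finset.sum_mul]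
  calc ∑ x, ∑ y, ∑ z, (S i x : ℤ) * ((R x z : ℤ) * (S z y : ℤ) * w y)
      = ∑ x, ∑ z, ∑ y, (S i x : ℤ) * ((R x z : ℤ) * (S z y : ℤ) * w y) := by
        exact Finset.sum_congr rfl fun x _ => Finset.sum_comm
    _ = ∑ z, ∑ x, ∑ y, (S i x : ℤ) * ((R x z : ℤ) * (S z y : ℤ) * w y) := Finset.sum_comm
    _ = ∑ z, ∑ y, ∑ x, (S i x : ℤ) * ((R x z : ℤ) * (S z y : ℤ) * w y) := by
        exact Finset.sum_congr rfl fun z _ => Finset.sum_comm
    _ = _ := by
        refine Finset.sum_congr rfl fun z _ => Finset.sum_congr rfl fun y _ =>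
          Finset.sum_congr rfl fun x _ => by ring

theorem mulVec_smul_nat (S : Matrix κ ι ℕ) (r : ℕ) (a : ι → ℕ) (i : κ) :
    (S *ᵥ fun i => r * a i) i = r * (S *ᵥ a) i := by
  simp only [mulVec, dotProduct, Finset.mul_sum]
  exact Finset.sum_congr rfl fun j _ => by ring

/-- the chain carries positive columns -/
theorem pos_chain {A : Matrix ι ι ℕ} (N : ℕ) (hN : 2 ≤ N) (u : ι → ℕ) (hu : ∀ i, 0 < u i)
    {μ : Type} [Fintype μ] {B : Matrix μ μ ℕ} {s : Matrix μ ι ℕ} (h : PG A μ B s) :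
    ∃ (u1 : μ → ℕ) (k : ℕ), (∀ i, 0 < u1 i) ∧ Cong N B u1 (fun i => N ^ k * (s *ᵥ u) i) ∧
      Relation.TransGen Elem (ob (ex A u N)) (ob (ex B u1 N)) := by
  induction h with
  | one κ R S h =>
    rw [h]
    exact pos_step N hN R S u hu
  | tail κ μ R S s h ih =>
    obtain ⟨u1, k, hu1, hc, ht⟩ := ih
    obtain ⟨u2, l, hu2, hc2, ht2⟩ := pos_step N hN R S u1 hu1
    refine ⟨u2, l + k, hu2, ?_, ht.trans ht2⟩
    have h1 := (hc.map.smul (N ^ l))
    refine hc2.trans ?_
    have e : (fun i => N ^ l * (S *ᵥ fun i => N ^ k * (s *ᵥ u) i) i) =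
        fun i => N ^ (l + k) * ((S * s) *ᵥ u) i := by
      funext i
      rw [mulVec_smul_nat, mulVec_mulVec, ← mul_assoc, ← pow_add]
    rw [e] at h1
    exact h1

theorem suff {A : Matrix ι ι ℕ} {B : Matrix κ κ ℕ} (N : ℕ) (hN : 2 ≤ N) (u : ι → ℕ)
    (hu : ∀ i, 0 < u i) (u' : κ → ℕ) (hu' : ∀ i, 0 < u' i) (s : Matrix κ ι ℕ) (h : PG A κ B s)
    (r l : ℕ) (hr : r ∣ N ^ l) (hc : Cong N B (s *ᵥ u) (fun i => r * u' i)) :
    Relation.TransGen Elem (ob (ex A u N)) (ob (ex B u' N)) := by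
  obtain ⟨u1, k, hu1, hc1, ht⟩ := pos_chain N hN u hu h
  have hr0 : 0 < r := Nat.pos_of_dvd_of_pos hr (Nat.pow_pos (by omega))
  have h1 : Cong N B u1 (fun i => N ^ k * r * u' i) := by
    refine hc1.trans ?_
    have h2 := hc.smul (N ^ k)
    have e : (fun i => N ^ k * (r * u' i)) = fun i => N ^ k * r * u' i := by
      funext i
      rw [mul_assoc]
    rw [e] at h2
    exact h2
  have h2 := interp B N hN u1 _ hu1 (fun i => Nat.mul_pos (Nat.mul_pos (Nat.pow_pos (by omega)) hr0)
    (hu' i)) h1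
  have h3 := scale B N (by omega) (k + l) (N ^ k * r) u' (by
    rw [pow_add]
    exact Nat.mul_dvd_mul_left _ hr)
  exact ht.trans (h2.trans (tg_symm h3))

end

end Pool.Agent.Q133.TR
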