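import Pool.Agent.Q133.TR.Ext1

set_option autoImplicit false

/-!
Extensions `[[A, u], [0, N]]`: the necessary condition.
-/

namespace Pool.Agent.Q133.TR

open Pool.Agent.Q324.SC.Mat Matrix

open Classical

theorem PG.relabel {ι κ μ : Type} [Fintype ι] [Fintype κ] [Fintype μ] {A : Matrix ι ι ℕ}
    {M : Matrix κ κ ℕ} {s : Matrix κ ι ℕ} (h : PG A κ M s) (e : μ ≃ κ) :
    PG A μ (M.submatrix e e) (s.submatrix e id) := by
  have e1 : M.submatrix id e * (1 : Matrix κ κ ℕ).submatrix e id = M := by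
    have := Matrix.submatrix_mul_equiv M (1 : Matrix κ κ ℕ) id e id
    rw [this, mul_one]
    rfl
  have e2 : (1 : Matrix κ κ ℕ).submatrix e id * M.submatrix id e = M.submatrix e e := by
    have := Matrix.submatrix_mul_equiv (1 : Matrix κ κ ℕ) M e (Equiv.refl κ) e
    rw [one_mul] at this
    exact this
  have e3 : (1 : Matrix κ κ ℕ).submatrix e id * s = s.submatrix e id := by
    have := Matrix.submatrix_mul_equiv (1 : Matrix κ κ ℕ) s e (Equiv.refl κ) id
    rw [Matrix.one_mul] at this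
    exact this
  rw [← e1] at h
  have h1 := PG.tail κ μ _ _ s h
  rw [e2, e3] at h1
  exact h1

/-- state of the tracking -/
def Inv {ι : Type} [Fintype ι] (A : Matrix ι ι ℕ) (u : ι → ℕ) (N : ℕ) {κ : Type} [Fintype κ]
    (M : Matrix κ κ ℕ) : Prop :=
  ∃ (ρ v Q : κ → ℕ) (k : ℕ) (s : Matrix (GI N M) ι ℕ),
    (∀ i, ¬ Bad N M i → ρ i = 0) ∧ (∀ i, Bad N M i → v i = 0) ∧
    (∀ i, (M *ᵥ ρ) i = N * ρ i + v i) ∧ (∀ i, ¬ Bad N M i → Q i = 0) ∧
    (∑ i, Q i * ρ i = N ^ k) ∧ PG A (GI N M) (gd N M) s ∧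
    Cong N (gd N M) (fun i => v i.1) (s *ᵥ u)

theorem bad_succ {κ : Type} [Fintype κ] {N : ℕ} {ι : Type} [Fintype ι] (R : Matrix ι κ ℕ)
    (S : Matrix κ ι ℕ) {j l : κ} (h : Bad N (S * R) j) (hne : (S * R) j l ≠ 0) :
    Bad N (S * R) l := by
  have h1 : ∃ i, S j i * R i l ≠ 0 := by
    by_contra hc
    push Not at hc
    exact hne (Finset.sum_eq_zero fun i _ => hc i)
  obtain ⟨i, hi⟩ := h1
  have h2 : S j i ≠ 0 := fun h0 => hi (by rw [h0, zero_mul])
  have h3 : R i l ≠ 0 := fun h0 => hi (by rw [h0, mul_zero])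
  exact bad_of (bad_of h h2) h3

theorem sum_GI {κ : Type} [Fintype κ] {N : ℕ} {M : Matrix κ κ ℕ} (f : κ → ℕ)
    (hf : ∀ i, Bad N M i → f i = 0) : ∑ i, f i = ∑ i : GI N M, f i.1 := by
  have h1 := Fintype.sum_subtype_add_sum_subtype (fun j => ¬ Bad N M j) f
  rw [← h1]
  have h2 : ∑ j : {j // ¬ ¬ Bad N M j}, f j = 0 :=
    Finset.sum_eq_zero fun j _ => hf _ (not_not.1 j.2)
  rw [h2, add_zero]
  rfl

theorem gd_mul {ι κ : Type} [Fintype ι] [Fintype κ] (N : ℕ) (R : Matrix ι κ ℕ)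
    (S : Matrix κ ι ℕ) : gd N (R * S) =
      (Matrix.of fun (a : GI N (R * S)) (b : GI N (S * R)) => R a.1 b.1) *
        (Matrix.of fun (a : GI N (S * R)) (b : GI N (R * S)) => S a.1 b.1) := by
  refine Matrix.ext fun a b => ?_
  rw [Matrix.mul_apply]
  show (R * S) a.1 b.1 = _
  rw [Matrix.mul_apply]
  refine sum_GI (N := N) (M := S * R) _ fun j hj => ?_
  have h3 : S j b.1 = 0 := by
    by_contra hne
    exact b.2 (bad_of hj hne)
  rw [h3, mul_zero]

theorem Inv.step {ι : Type} [Fintype ι] {A : Matrix ι ι ℕ} {u : ι → ℕ} {N : ℕ} {κ μ : Type}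
    [Fintype κ] [Fintype μ] {M : Matrix κ κ ℕ} {M' : Matrix μ μ ℕ} (hE : El M M')
    (h : Inv A u N M) : Inv A u N M' := by
  obtain ⟨R, S, rfl, rfl⟩ := hE
  obtain ⟨ρ, v, Q, k, s, hρ, hv, hM, hQ, hQρ, hPG, hc⟩ := h
  let τ : μ → ℕ := S *ᵥ ρ
  let ρ' : μ → ℕ := fun j => if Bad N (S * R) j then τ j else 0
  let z : μ → ℕ := fun j => if Bad N (S * R) j then 0 else τ j
  let v' : μ → ℕ := fun j => if Bad N (S * R) j then 0 else ((S * R) *ᵥ ρ') j
  let Q' : μ → ℕ := fun j => ∑ i, Q i * R i j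
  have hτ : ∀ j, τ j = ρ' j + z j := by
    intro j
    by_cases hb : Bad N (S * R) j <;> simp [ρ', z, hb]
  have hτ' : τ = ρ' + z := funext hτ
  -- `M' τ = N τ + S v`
  have hMτ : ∀ j, ((S * R) *ᵥ τ) j = N * τ j + (S *ᵥ v) j := by
    intro j
    have h1 : (S * R) *ᵥ τ = S *ᵥ ((R * S) *ᵥ ρ) := by
      show (S * R) *ᵥ (S *ᵥ ρ) = _
      rw [mulVec_mulVec, mulVec_mulVec, Matrix.mul_assoc]
    have h2 : (R * S) *ᵥ ρ = (fun i => N * ρ i) + v := by
      funext i
      exact hM i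
    rw [h1, h2, mulVec_add, Pi.add_apply, mulVec_smul_nat]
  have hsplit : ∀ j, ((S * R) *ᵥ τ) j = ((S * R) *ᵥ ρ') j + ((S * R) *ᵥ z) j := by
    intro j
    rw [hτ', mulVec_add, Pi.add_apply]
  have hSv : ∀ j, Bad N (S * R) j → (S *ᵥ v) j = 0 := by
    intro j hj
    refine Finset.sum_eq_zero fun i _ => ?_
    show S j i * v i = 0
    by_cases h0 : S j i = 0
    · rw [h0, zero_mul]
    · rw [hv i (bad_of hj h0), mul_zero]
  have hMz : ∀ j, Bad N (S * R) j → ((S * R) *ᵥ z) j = 0 := by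
    intro j hj
    refine Finset.sum_eq_zero fun l _ => ?_
    show (S * R) j l * z l = 0
    by_cases h0 : (S * R) j l = 0
    · rw [h0, zero_mul]
    · have h1 : z l = 0 := by simp [z, bad_succ R S hj h0]
      rw [h1, mul_zero]
  have hM' : ∀ j, ((S * R) *ᵥ ρ') j = N * ρ' j + v' j := by
    intro j
    by_cases hb : Bad N (S * R) j
    · have h1 := hMτ j
      rw [hsplit j, hSv j hb, hMz j hb] at h1
      have h2 : v' j = 0 := by simp [v', hb]
      have h3 : z j = 0 := by simp [z, hb]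
      have h4 := hτ j
      rw [h2]
      rw [h4, h3] at h1
      simpa using h1
    · have h2 : v' j = ((S * R) *ᵥ ρ') j := by simp [v', hb]
      have h3 : ρ' j = 0 := by simp [ρ', hb]
      rw [h2, h3, mul_zero, zero_add]
  have hQ' : ∀ j, ¬ Bad N (S * R) j → Q' j = 0 := by
    intro j hj
    refine Finset.sum_eq_zero fun i _ => ?_
    by_cases h0 : R i j = 0
    · rw [h0, mul_zero]
    · have h1 : ¬ Bad N (R * S) i := fun hb => hj (bad_of hb h0)
      rw [hQ i h1, zero_mul]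
  have hQρ' : ∑ j, Q' j * ρ' j = N ^ (k + 1) := by
    have h1 : ∑ j, Q' j * ρ' j = ∑ j, Q' j * τ j := by
      refine Finset.sum_congr rfl fun j _ => ?_
      by_cases hb : Bad N (S * R) j
      · have h3 : z j = 0 := by simp [z, hb]
        rw [hτ j, h3, add_zero]
      · rw [hQ' j hb, zero_mul, zero_mul]
    have h2 : ∑ j, Q' j * τ j = ∑ i, Q i * ((R * S) *ᵥ ρ) i := by
      have h3 : (R * S) *ᵥ ρ = R *ᵥ τ := by
        show _ = R *ᵥ (S *ᵥ ρ)
        rw [mulVec_mulVec]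
      rw [h3]
      simp only [Q', mulVec, dotProduct, Finset.mul_sum, Finset.sum_mul]
      rw [Finset.sum_comm]
      exact Finset.sum_congr rfl fun i _ => Finset.sum_congr rfl fun j _ => by ring
    rw [h1, h2]
    have h4 : ∀ i, Q i * ((R * S) *ᵥ ρ) i = N * (Q i * ρ i) := by
      intro i
      rw [hM i]
      by_cases hb : Bad N (R * S) i
      · rw [hv i hb, add_zero]
        ring
      · rw [hQ i hb]
        simp
    rw [Finset.sum_congr rfl fun i _ => h4 i, ← Finset.mul_sum, hQρ, pow_succ']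
  have hgd := gd_mul N R S
  have hgd' := gd_mul N S R
  refine ⟨ρ', v', Q', k + 1, (Matrix.of fun (a : GI N (S * R)) (b : GI N (R * S)) => S a.1 b.1) * s,
    fun j hj => by simp [ρ', hj], fun j hj => by simp [v', hj], hM', hQ', hQρ', ?_, ?_⟩
  · rw [hgd] at hPG
    rw [hgd']
    exact PG.tail _ _ _ _ s hPG
  · rw [hgd] at hc
    have hc2 := hc.map
    rw [← hgd', mulVec_mulVec] at hc2
    refine Cong.trans ⟨fun j => (z j.1 : ℤ), fun j => ?_⟩ hc2
    -- `v' + gd' z = N z + S v`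
    have h1 := hMτ j.1
    rw [hsplit j.1] at h1
    have h2 : v' j.1 = ((S * R) *ᵥ ρ') j.1 := by simp [v', j.2]
    have h3 : τ j.1 = z j.1 := by simp [z, j.2]
    rw [← h2, h3] at h1
    have h4 : ((S * R) *ᵥ z) j.1 = ∑ l : GI N (S * R), (S * R) j.1 l.1 * z l.1 :=
      sum_GI (N := N) (M := S * R) (fun l => (S * R) j.1 l * z l)
        (fun l hl => by simp [z, hl])
    have h5 : (S *ᵥ v) j.1 = ∑ i : GI N (R * S), S j.1 i.1 * v i.1 :=
      sum_GI (N := N) (M := R * S) (fun i => S j.1 i * v i)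
        (fun i hi => by rw [hv i hi, mul_zero])
    rw [h4, h5] at h1
    have h6 : ((v' j.1 + ∑ l : GI N (S * R), (S * R) j.1 l.1 * z l.1 : ℕ) : ℤ) =
        ((N * z j.1 + ∑ i : GI N (R * S), S j.1 i.1 * v i.1 : ℕ) : ℤ) := by rw [h1]
    push_cast at h6
    have h7 : (((Matrix.of fun (a : GI N (S * R)) (b : GI N (R * S)) => S a.1 b.1) *ᵥ
        fun i => v i.1) j : ℤ) = ∑ i : GI N (R * S), (S j.1 i.1 : ℤ) * (v i.1 : ℤ) := by
      simp only [mulVec, dotProduct, Matrix.of_apply]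
      push_cast
      rfl
    rw [h7]
    have h8 : ∑ l : GI N (S * R), ((gd N (S * R) j l : ℕ) : ℤ) * (z l.1 : ℤ) =
        ∑ l : GI N (S * R), (((S * R) j.1 l.1 : ℕ) : ℤ) * (z l.1 : ℤ) := rfl
    rw [h8]
    linarith

section final

variable {ι κ : Type} [Fintype ι] [Fintype κ]

theorem ex_not_bad {A : Matrix ι ι ℕ} {u : ι → ℕ} {N : ℕ} (hN : 0 < N)
    (hA : ∀ i, ∑ j, A i j < N) (i : ι) : ¬ Bad N (ex A u N) (Sum.inl i) := by
  rw [bad_iff]
  rintro ⟨c, hc⟩
  refine not_growth A N hN hA i c fun k => (hc k).trans (le_of_eq ?_)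
  congr 1
  rw [Fintype.sum_sum_type]
  simp only [ex_pow_in]
  have h2 : ∑ x : Unit, (ex A u N ^ k) (Sum.inr x) (Sum.inl i) = 0 :=
    Finset.sum_eq_zero fun x _ => ex_pow_out A u N k i
  rw [h2, add_zero]

theorem ex_bad {A : Matrix ι ι ℕ} {u : ι → ℕ} {N : ℕ} (x : Unit) :
    Bad N (ex A u N) (Sum.inr x) := by
  rw [bad_iff]
  refine ⟨1, fun k => ?_⟩
  rw [one_mul]
  refine le_trans (le_of_eq (ex_pow_N A u N k).symm) ?_
  exact Finset.single_le_sum (f := fun l => (ex A u N ^ k) l (Sum.inr x))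
    (fun _ _ => Nat.zero_le _) (Finset.mem_univ (Sum.inr ()))

/-- the indices of `A` -/
noncomputable def gq {A : Matrix ι ι ℕ} {u : ι → ℕ} {N : ℕ} (hN : 0 < N)
    (hA : ∀ i, ∑ j, A i j < N) : ι ≃ GI N (ex A u N) :=
  Equiv.ofBijective (fun i => (⟨Sum.inl i, ex_not_bad hN hA i⟩ : GI N (ex A u N))) (by
    constructor
    · intro i j hij
      have h1 := congrArg Subtype.val hij
      exact Sum.inl_injective h1
    · rintro ⟨x, hx⟩
      rcases x with x | x
      · exact ⟨x, rfl⟩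
      · exact absurd (ex_bad x) hx)

theorem gq_val {A : Matrix ι ι ℕ} {u : ι → ℕ} {N : ℕ} (hN : 0 < N)
    (hA : ∀ i, ∑ j, A i j < N) (i : ι) : (gq (u := u) hN hA i).1 = Sum.inl i := rfl

theorem gq_sub {A : Matrix ι ι ℕ} {u : ι → ℕ} {N : ℕ} (hN : 0 < N)
    (hA : ∀ i, ∑ j, A i j < N) :
    (gd N (ex A u N)).submatrix (gq hN hA) (gq hN hA) = A := rfl

theorem Inv.base (A : Matrix ι ι ℕ) (u : ι → ℕ) (N : ℕ) (hN : 0 < N)
    (hA : ∀ i, ∑ j, A i j < N) : Inv A u N (ex A u N) := by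
  let e := gq (u := u) hN hA
  have hgd : gd N (ex A u N) = A.submatrix e.symm e.symm := by
    refine Matrix.ext fun g g' => ?_
    obtain ⟨a, rfl⟩ := e.surjective g
    obtain ⟨b, rfl⟩ := e.surjective g'
    rw [Matrix.submatrix_apply, Equiv.symm_apply_apply, Equiv.symm_apply_apply]
    rfl
  refine ⟨Sum.elim (fun _ => 0) (fun _ => 1), Sum.elim u (fun _ => 0),
    Sum.elim (fun _ => 0) (fun _ => 1), 0, (1 : Matrix ι ι ℕ).submatrix e.symm id, ?_, ?_, ?_, ?_,
    ?_, ?_, ?_⟩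
  · rintro (i | x) hi
    · rfl
    · exact absurd (ex_bad x) hi
  · rintro (i | x) hi
    · exact absurd hi (ex_not_bad hN hA i)
    · rfl
  · rintro (i | x)
    · simp [mulVec, dotProduct, Fintype.sum_sum_type, ex]
    · simp [mulVec, dotProduct, Fintype.sum_sum_type, ex]
  · rintro (i | x) hi
    · rfl
    · exact absurd (ex_bad x) hi
  · simp [Fintype.sum_sum_type]
  · rw [hgd]
    have e1 : A = A.submatrix id e.symm * (1 : Matrix ι ι ℕ).submatrix e.symm id := by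
      have := Matrix.submatrix_mul_equiv A (1 : Matrix ι ι ℕ) id e.symm id
      rw [this, mul_one]
      rfl
    have e2 : (1 : Matrix ι ι ℕ).submatrix e.symm id * A.submatrix id e.symm =
        A.submatrix e.symm e.symm := by
      have := Matrix.submatrix_mul_equiv (1 : Matrix ι ι ℕ) A e.symm (Equiv.refl ι) e.symm
      rw [Matrix.one_mul] at this
      exact this
    have h1 := PG.one (A := A) (GI N (ex A u N)) (A.submatrix id e.symm)
      ((1 : Matrix ι ι ℕ).submatrix e.symm id) e1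
    rw [e2] at h1
    exact h1
  · have h1 : (fun i : GI N (ex A u N) => (Sum.elim u (fun _ => 0) i.1 : ℕ)) =
        (1 : Matrix ι ι ℕ).submatrix e.symm id *ᵥ u := by
      funext g
      obtain ⟨a, rfl⟩ := e.surjective g
      have h2 : ((1 : Matrix ι ι ℕ).submatrix e.symm id *ᵥ u) (e a) = u a := by
        have h3 : ((1 : Matrix ι ι ℕ).submatrix e.symm id *ᵥ u) (e a) =
            ((1 : Matrix ι ι ℕ) *ᵥ u) a := by
          show ∑ t, (1 : Matrix ι ι ℕ) (e.symm (e a)) t * u t =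
            ∑ t, (1 : Matrix ι ι ℕ) a t * u t
          rw [Equiv.symm_apply_apply]
        rw [h3, Matrix.one_mulVec]
      rw [h2]
      rfl
    rw [h1]
    exact ⟨0, fun i => by simp⟩

theorem Inv.fin {A : Matrix ι ι ℕ} {u : ι → ℕ} {N : ℕ} (hN : 0 < N) {B : Matrix κ κ ℕ}
    (hB : ∀ i, ∑ j, B i j < N) {u' : κ → ℕ} (h : Inv A u N (ex B u' N)) :
    ∃ (s : Matrix κ ι ℕ) (r k : ℕ), PG A κ B s ∧ r ∣ N ^ k ∧
      Cong N B (s *ᵥ u) (fun i => r * u' i) := by
  obtain ⟨ρ, v, Q, k, s, hρ, hv, hM, hQ, hQρ, hPG, hc⟩ := h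
  let e := gq (u := u') hN hB
  refine ⟨s.submatrix e id, ρ (Sum.inr ()), k, ?_, ?_, ?_⟩
  · have h1 := hPG.relabel e
    exact h1
  · rw [Fintype.sum_sum_type] at hQρ
    have h1 : ∑ i : κ, Q (Sum.inl i) * ρ (Sum.inl i) = 0 :=
      Finset.sum_eq_zero fun i _ => by rw [hρ _ (ex_not_bad hN hB i), mul_zero]
    rw [h1, zero_add] at hQρ
    have h2 : ∑ x : Unit, Q (Sum.inr x) * ρ (Sum.inr x) = Q (Sum.inr ()) * ρ (Sum.inr ()) := by
      simp
    rw [h2] at hQρ
    exact ⟨_, by rw [← hQρ, mul_comm]⟩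
  · refine Cong.symm ?_
    obtain ⟨w, hw⟩ := hc
    refine ⟨fun i => w (e i), fun i => ?_⟩
    have h1 : ((v (e i).1 : ℕ) : ℤ) - ((s *ᵥ u) (e i) : ℤ) = N * w (e i) -
        ∑ j, ((gd N (ex B u' N)) (e i) j : ℤ) * w j := hw (e i)
    have h2 : v (e i).1 = ρ (Sum.inr ()) * u' i := by
      have h3 := hM (Sum.inl i)
      rw [hρ _ (ex_not_bad hN hB i), mul_zero, zero_add] at h3
      have h4 : (ex B u' N *ᵥ ρ) (Sum.inl i) = u' i * ρ (Sum.inr ()) := by
        have h5 : ∀ j, ρ (Sum.inl j) = 0 := fun j => hρ _ (ex_not_bad hN hB j)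
        simp [mulVec, dotProduct, Fintype.sum_sum_type, ex, h5]
      show v (Sum.inl i) = _
      rw [← h3, h4, mul_comm]
    rw [h2] at h1
    have h6 : ((s.submatrix e id) *ᵥ u) i = (s *ᵥ u) (e i) := by
      simp only [mulVec, dotProduct, Matrix.submatrix_apply, id]
    have h7 : ∑ g : GI N (ex B u' N), ((gd N (ex B u' N)) (e i) g : ℤ) * w g =
        ∑ j, (B i j : ℤ) * w (e j) := by
      rw [← e.sum_comp]
      rfl
    rw [h7] at h1
    rw [h6]
    exact h1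

/-- **Extensions by a dominating full shift.** -/
theorem ext_iff {A : Matrix ι ι ℕ} {B : Matrix κ κ ℕ} {N : ℕ} (hN : 2 ≤ N)
    (hA : ∀ i, ∑ j, A i j < N) (hB : ∀ i, ∑ j, B i j < N) {u : ι → ℕ} {u' : κ → ℕ}
    (hu : ∀ i, 0 < u i) (hu' : ∀ i, 0 < u' i) :
    Sim (ex A u N) (ex B u' N) ↔ ∃ (s : Matrix κ ι ℕ) (r k : ℕ), PG A κ B s ∧ r ∣ N ^ k ∧
      Cong N B (s *ᵥ u) (fun i => r * u' i) := by
  constructor
  · intro h
    have h1 : Inv A u N (ob (ex A u N)).2 :=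
      (Inv.base A u N (by omega) hA).step (el_ob (ex A u N)).symm
    have h2 : ∀ {X Y : Obj}, Relation.TransGen Elem X Y → Inv A u N X.2 → Inv A u N Y.2 := by
      intro X Y hXY hX
      induction hXY with
      | single h => exact hX.step h
      | tail _ h ih => exact ih.step h
    have h3 := (h2 h h1).step (el_ob (ex B u' N))
    exact h3.fin (by omega) hB
  · rintro ⟨s, r, k, hs, hr, hc⟩
    exact suff N hN u hu u' hu' s hs r k hr hc

end final

end Pool.Agent.Q133.TR
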