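import Pool.Agent.Q133.TR.Ext2

set_option autoImplicit false

/-!
Extensions `[[A, u], [0, N]]`: consequences.
-/

namespace Pool.Agent.Q133.TR

open Pool.Agent.Q324.SC.Mat Matrix

theorem cong_of_det {κ : Type} [Fintype κ] [DecidableEq κ] (N : ℕ) (M : Matrix κ κ ℕ)
    (a b : κ → ℕ)
    (h : ∀ i, ((N : ℤ) • (1 : Matrix κ κ ℤ) - M.map (Nat.cast : ℕ → ℤ)).det ∣ (a i : ℤ) - b i) :
    Cong N M a b := by
  let P : Matrix κ κ ℤ := (N : ℤ) • (1 : Matrix κ κ ℤ) - M.map (Nat.cast : ℕ → ℤ)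
  choose q hq using h
  refine ⟨P.adjugate *ᵥ q, fun i => ?_⟩
  have h1 : (P *ᵥ (P.adjugate *ᵥ q)) i = P.det * q i := by
    rw [mulVec_mulVec, Matrix.mul_adjugate, smul_mulVec, one_mulVec]
    rfl
  have h2 : ∀ w : κ → ℤ, (P *ᵥ w) i = N * w i - ∑ j, (M i j : ℤ) * w j := by
    intro w
    have e : (P *ᵥ w) = (N : ℤ) • w - (M.map (Nat.cast : ℕ → ℤ)) *ᵥ w := by
      rw [sub_mulVec, smul_mulVec, one_mulVec]
    rw [e]
    rfl
  rw [← h2, h1]
  exact hq i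

theorem PG_of_tg {X Y : Obj} (h : Relation.TransGen Elem X Y) :
    ∃ s : Matrix (Fin Y.1) (Fin X.1) ℕ, PG X.2 (Fin Y.1) Y.2 s := by
  induction h with
  | single h =>
    obtain ⟨R, S, h1, h2⟩ := h
    refine ⟨S, ?_⟩
    rw [h2]
    exact PG.one _ R S h1
  | tail _ h ih =>
    obtain ⟨s, hs⟩ := ih
    obtain ⟨R, S, h1, h2⟩ := h
    refine ⟨S * s, ?_⟩
    rw [h1] at hs
    rw [h2]
    exact PG.tail _ _ R S s hs

theorem tg_of_PG {ι : Type} [Fintype ι] {A : Matrix ι ι ℕ} {κ : Type} [Fintype κ]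
    {B : Matrix κ κ ℕ} {s : Matrix κ ι ℕ} (h : PG A κ B s) : Sim A B := by
  induction h with
  | one κ R S h => exact (show El A (S * R) from ⟨R, S, h, rfl⟩).tg
  | tail κ μ R S s h ih =>
    exact ih.trans (show El (R * S) (S * R) from ⟨R, S, rfl, rfl⟩).tg

end Pool.Agent.Q133.TR
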