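import Pool.Agent.Q133.TR.Base

set_option autoImplicit false

/-!
The part of a matrix which is not reached from a component of size `N`.
-/

namespace Pool.Agent.Q133.TR

open Pool.Agent.Q324.SC.Mat Matrix

open Classical

section bad

variable {ι κ : Type} [Fintype ι] [Fintype κ]

/-- the number of paths which end in `i` grows at least like `N ^ k` -/
def Bad (N : ℕ) (M : Matrix ι ι ℕ) (i : ι) : Prop :=
  ∃ c : ℕ, ∀ k : ℕ, N ^ k ≤ c * ∑ l, (M ^ k) l i

theorem bad_iff [inst : DecidableEq ι] {N : ℕ} {M : Matrix ι ι ℕ} {i : ι} :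
    Bad N M i ↔ ∃ c : ℕ, ∀ k : ℕ, N ^ k ≤ c * ∑ l, (M ^ k) l i := by
  unfold Bad
  have h : inst = fun a b => propDecidable (a = b) := Subsingleton.elim _ _
  rw [h]

theorem pow_rs (R : Matrix ι κ ℕ) (S : Matrix κ ι ℕ) : ∀ k : ℕ,
    (S * R) ^ (k + 1) = S * (R * S) ^ k * R := by
  intro k
  induction k with
  | zero => simp
  | succ k ih =>
    rw [pow_succ, ih, pow_succ]
    simp only [Matrix.mul_assoc]

theorem bad_of {N : ℕ} {R : Matrix ι κ ℕ} {S : Matrix κ ι ℕ} {i : ι} {j : κ}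
    (h : Bad N (R * S) i) (hR : R i j ≠ 0) : Bad N (S * R) j := by
  obtain ⟨c, hc⟩ := h
  refine ⟨c * (∑ a, ∑ b, R a b) + 1, fun k => ?_⟩
  cases k with
  | zero =>
    rw [pow_zero, pow_zero]
    have h1 : 1 ≤ ∑ l, (1 : Matrix κ κ ℕ) l j := by
      refine le_trans ?_ (Finset.single_le_sum (f := fun l => (1 : Matrix κ κ ℕ) l j)
        (fun _ _ => Nat.zero_le _) (Finset.mem_univ j))
      simp
    nlinarith [Nat.zero_le (c * (∑ a, ∑ b, R a b) * ∑ l, (1 : Matrix κ κ ℕ) l j)]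
  | succ k =>
    have h1 : ∑ l, ((R * S) ^ (k + 1)) l i ≤
        (∑ a, ∑ b, R a b) * ∑ b, (S * (R * S) ^ k) b i := by
      have e : (R * S) ^ (k + 1) = R * (S * (R * S) ^ k) := by
        rw [pow_succ', Matrix.mul_assoc]
      rw [e, Finset.sum_mul]
      refine Finset.sum_le_sum fun a _ => ?_
      rw [Matrix.mul_apply, Finset.sum_mul]
      refine Finset.sum_le_sum fun b _ => ?_
      exact Nat.mul_le_mul_left _ (Finset.single_le_sum
        (f := fun b => (S * (R * S) ^ k) b i) (fun _ _ => Nat.zero_le _) (Finset.mem_univ b))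
    have h2 : ∑ b, (S * (R * S) ^ k) b i ≤ ∑ b, ((S * R) ^ (k + 1)) b j := by
      refine Finset.sum_le_sum fun b _ => ?_
      rw [pow_rs, Matrix.mul_apply]
      calc (S * (R * S) ^ k) b i ≤ (S * (R * S) ^ k) b i * R i j :=
            Nat.le_mul_of_pos_right _ (Nat.pos_of_ne_zero hR)
        _ ≤ _ := Finset.single_le_sum (f := fun i => (S * (R * S) ^ k) b i * R i j)
            (fun _ _ => Nat.zero_le _) (Finset.mem_univ i)
    calc N ^ (k + 1) ≤ c * ∑ l, ((R * S) ^ (k + 1)) l i := hc (k + 1)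
      _ ≤ c * ((∑ a, ∑ b, R a b) * ∑ b, ((S * R) ^ (k + 1)) b j) :=
          Nat.mul_le_mul_left _ (h1.trans (Nat.mul_le_mul_left _ h2))
      _ ≤ (c * (∑ a, ∑ b, R a b) + 1) * ∑ b, ((S * R) ^ (k + 1)) b j := by
          rw [← mul_assoc, Nat.add_mul]
          exact Nat.le_add_right _ _

end bad

/-- the indices where the number of the paths ending there grows slower than `N ^ k` -/
def GI {ι : Type} [Fintype ι] (N : ℕ) (M : Matrix ι ι ℕ) : Type := {i : ι // ¬ Bad N M i}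

noncomputable instance {ι : Type} [Fintype ι] (N : ℕ) (M : Matrix ι ι ℕ) : Fintype (GI N M) :=
  inferInstanceAs (Fintype {i : ι // ¬ Bad N M i})

/-- the part of `M` where the number of the paths ending there grows slower than `N ^ k` -/
def gd {ι : Type} [Fintype ι] (N : ℕ) (M : Matrix ι ι ℕ) : Matrix (GI N M) (GI N M) ℕ :=
  M.submatrix Subtype.val Subtype.val

theorem el_gd {ι κ : Type} [Fintype ι] [Fintype κ] (N : ℕ) {M : Matrix ι ι ℕ} {M' : Matrix κ κ ℕ}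
    (h : El M M') : El (gd N M) (gd N M') := by
  have main : ∀ {ι κ : Type} [Fintype ι] [Fintype κ] (R : Matrix ι κ ℕ) (S : Matrix κ ι ℕ)
      (a b : GI N (R * S)), (R * S) a.1 b.1 = ∑ j : GI N (S * R), R a.1 j.1 * S j.1 b.1 := by
    intro ι κ _ _ R S a b
    have h1 := Fintype.sum_subtype_add_sum_subtype (fun j => ¬ Bad N (S * R) j)
      (fun j => R a.1 j * S j b.1)
    rw [Matrix.mul_apply, ← h1]
    have h2 : ∑ j : {j // ¬ ¬ Bad N (S * R) j}, R a.1 j * S j b.1 = 0 := by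
      refine Finset.sum_eq_zero fun j _ => ?_
      have h3 : S j b.1 = 0 := by
        by_contra hne
        exact b.2 (bad_of (not_not.1 j.2) hne)
      rw [h3, mul_zero]
    rw [h2, add_zero]
    rfl
  obtain ⟨R, S, rfl, rfl⟩ := h
  refine ⟨Matrix.of fun a b => R a.1 b.1, Matrix.of fun a b => S a.1 b.1, ?_, ?_⟩
  · refine Matrix.ext fun a b => ?_
    rw [Matrix.mul_apply]
    exact main R S a b
  · refine Matrix.ext fun a b => ?_
    rw [Matrix.mul_apply]
    exact main S R a b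

theorem tg_gd (N : ℕ) {X Y : Obj} (h : Relation.TransGen Elem X Y) :
    Relation.TransGen Elem (ob (gd N X.2)) (ob (gd N Y.2)) :=
  h.lift (fun X : Obj => ob (gd N X.2)) (fun _ _ h => (el_gd N h).elem)

section parts

variable {ι κ : Type} [Fintype ι] [Fintype κ]

theorem ex_pow (A : Matrix ι ι ℕ) (u : ι → ℕ) (N : ℕ) : ∀ k : ℕ, ∃ v : ι → ℕ,
    ex A u N ^ k = fromBlocks (A ^ k) (of fun i _ => v i) 0 (of fun _ _ => N ^ k) := by
  intro k
  induction k with
  | zero =>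
    refine ⟨0, ?_⟩
    rw [pow_zero, pow_zero, pow_zero, ← fromBlocks_one]
    refine fromBlocks_inj.2 ⟨rfl, ?_, rfl, ?_⟩
    · ext i j
      rfl
    · ext i j
      simp
  | succ k ih =>
    obtain ⟨v, hv⟩ := ih
    refine ⟨fun i => (A *ᵥ v) i + u i * N ^ k, ?_⟩
    rw [pow_succ', hv]
    unfold ex
    rw [fromBlocks_multiply]
    refine fromBlocks_inj.2 ⟨?_, ?_, ?_, ?_⟩
    · simp [pow_succ']
    · ext i j
      simp [Matrix.mul_apply, mulVec, dotProduct]
    · simp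
    · ext i j
      simp [Matrix.mul_apply, pow_succ']

theorem ex_pow_in (A : Matrix ι ι ℕ) (u : ι → ℕ) (N k : ℕ) (a b : ι) :
    (ex A u N ^ k) (Sum.inl a) (Sum.inl b) = (A ^ k) a b := by
  obtain ⟨v, hv⟩ := ex_pow A u N k
  rw [hv, fromBlocks_apply₁₁]

theorem ex_pow_out (A : Matrix ι ι ℕ) (u : ι → ℕ) (N k : ℕ) (b : ι) :
    (ex A u N ^ k) (Sum.inr ()) (Sum.inl b) = 0 := by
  obtain ⟨v, hv⟩ := ex_pow A u N k
  rw [hv, fromBlocks_apply₂₁]
  rfl

theorem ex_pow_N (A : Matrix ι ι ℕ) (u : ι → ℕ) (N k : ℕ) :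
    (ex A u N ^ k) (Sum.inr ()) (Sum.inr ()) = N ^ k := by
  obtain ⟨v, hv⟩ := ex_pow A u N k
  rw [hv, fromBlocks_apply₂₂]
  rfl

theorem ex_pow_u (A : Matrix ι ι ℕ) (u : ι → ℕ) (N k : ℕ) (i : ι) :
    u i * N ^ k ≤ (ex A u N ^ (k + 1)) (Sum.inl i) (Sum.inr ()) := by
  rw [pow_succ', Matrix.mul_apply]
  refine le_trans (le_of_eq ?_) (Finset.single_le_sum
    (f := fun x => ex A u N (Sum.inl i) x * (ex A u N ^ k) x (Sum.inr ()))
    (fun _ _ => Nat.zero_le _) (Finset.mem_univ (Sum.inr ())))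
  show u i * N ^ k = ex A u N (Sum.inl i) (Sum.inr ()) * (ex A u N ^ k) (Sum.inr ()) (Sum.inr ())
  rw [ex_pow_N]
  rfl

/-- the matrix of the reduction -/
def cc (A : Matrix ι ι ℕ) (u : ι → ℕ) (B : Matrix κ κ ℕ) (t : κ → ℕ) (N : ℕ) :
    Matrix ((ι ⊕ Unit) ⊕ (κ ⊕ Unit)) ((ι ⊕ Unit) ⊕ (κ ⊕ Unit)) ℕ :=
  fromBlocks (ex A u N) 0 0 (ex B t N)ᵀ

theorem pow_le (A : Matrix ι ι ℕ) (ρ : ℕ) (hρ : ∀ i, ∑ j, A i j ≤ ρ) : ∀ (k : ℕ) (i j : ι),
    (A ^ k) i j ≤ ρ ^ k := by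
  intro k
  induction k with
  | zero =>
    intro i j
    rw [pow_zero, pow_zero, Matrix.one_apply]
    split_ifs <;> omega
  | succ k ih =>
    intro i j
    rw [pow_succ', Matrix.mul_apply, pow_succ']
    calc ∑ l, A i l * (A ^ k) l j ≤ ∑ l, A i l * ρ ^ k :=
          Finset.sum_le_sum fun l _ => Nat.mul_le_mul_left _ (ih l j)
      _ = (∑ l, A i l) * ρ ^ k := by rw [Finset.sum_mul]
      _ ≤ ρ * ρ ^ k := Nat.mul_le_mul_right _ (hρ i)

theorem cc_pow (A : Matrix ι ι ℕ) (u : ι → ℕ) (B : Matrix κ κ ℕ) (t : κ → ℕ) (N k : ℕ) :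
    cc A u B t N ^ k = fromBlocks (ex A u N ^ k) 0 0 ((ex B t N)ᵀ ^ k) := by
  unfold cc
  rw [fromBlocks_diagonal_pow]

theorem bern (ρ : ℕ) : ∀ k : ℕ, (ρ + k) * ρ ^ k ≤ ρ * (ρ + 1) ^ k := by
  intro k
  induction k with
  | zero => simp
  | succ k ih =>
    rw [pow_succ, pow_succ]
    calc (ρ + (k + 1)) * (ρ ^ k * ρ) = ρ * (ρ + k + 1) * ρ ^ k := by ring
      _ ≤ (ρ + 1) * (ρ + k) * ρ ^ k := by
          refine Nat.mul_le_mul_right _ ?_
          nlinarith
      _ = (ρ + 1) * ((ρ + k) * ρ ^ k) := by ring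
      _ ≤ (ρ + 1) * (ρ * (ρ + 1) ^ k) := Nat.mul_le_mul_left _ ih
      _ = ρ * ((ρ + 1) ^ k * (ρ + 1)) := by ring

theorem not_growth (A : Matrix ι ι ℕ) (N : ℕ) (hN : 0 < N) (hA : ∀ i, ∑ j, A i j < N) (i : ι)
    (c : ℕ) (hc : ∀ k, N ^ k ≤ c * ∑ l, (A ^ k) l i) : False := by
  obtain ⟨ρ, rfl⟩ : ∃ ρ, N = ρ + 1 := ⟨N - 1, by omega⟩
  have hρ : ∀ i, ∑ j, A i j ≤ ρ := fun i => Nat.lt_succ_iff.1 (hA i)
  have h1 : ∀ k, ∑ l, (A ^ k) l i ≤ Fintype.card ι * ρ ^ k := by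
    intro k
    calc ∑ x, (A ^ k) x i ≤ ∑ _x : ι, ρ ^ k := Finset.sum_le_sum fun x _ => pow_le A ρ hρ k x i
      _ = Fintype.card ι * ρ ^ k := by simp
  have h2 : ∀ k, (ρ + 1) ^ k ≤ c * Fintype.card ι * ρ ^ k := by
    intro k
    rw [mul_assoc]
    exact (hc k).trans (Nat.mul_le_mul_left _ (h1 k))
  rcases Nat.eq_zero_or_pos ρ with h0 | h0
  · have h3 := h2 1
    rw [h0] at h3
    simp at h3
  · have h3 := h2 (ρ * (c * Fintype.card ι))
    have h4 := bern ρ (ρ * (c * Fintype.card ι))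
    have h5 : (ρ + ρ * (c * Fintype.card ι)) * ρ ^ (ρ * (c * Fintype.card ι)) ≤
        ρ * (c * Fintype.card ι) * ρ ^ (ρ * (c * Fintype.card ι)) := by
      refine h4.trans ?_
      rw [mul_assoc]
      exact Nat.mul_le_mul_left _ h3
    have h6 := Nat.le_of_mul_le_mul_right h5 (Nat.pow_pos h0)
    omega

theorem not_bad {A : Matrix ι ι ℕ} {u : ι → ℕ} {B : Matrix κ κ ℕ} {t : κ → ℕ} {N : ℕ}
    (hN : 0 < N) (hA : ∀ i, ∑ j, A i j < N) (i : ι) :
    ¬ Bad N (cc A u B t N) (Sum.inl (Sum.inl i)) := by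
  rw [bad_iff]
  rintro ⟨c, hc⟩
  refine not_growth A N hN hA i c fun k => (hc k).trans (le_of_eq ?_)
  congr 1
  rw [cc_pow, Fintype.sum_sum_type, Fintype.sum_sum_type]
  simp only [fromBlocks_apply₁₁, fromBlocks_apply₂₁, Matrix.zero_apply, Finset.sum_const_zero,
    add_zero, ex_pow_in]
  have h2 : ∑ x : Unit, (ex A u N ^ k) (Sum.inr x) (Sum.inl i) = 0 :=
    Finset.sum_eq_zero fun x _ => ex_pow_out A u N k i
  rw [h2, add_zero]

theorem bad_rest {A : Matrix ι ι ℕ} {u : ι → ℕ} {B : Matrix κ κ ℕ} {t : κ → ℕ} {N : ℕ}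
    (hN : 0 < N) (ht : ∀ j, 0 < t j) (x : (ι ⊕ Unit) ⊕ (κ ⊕ Unit))
    (hx : ∀ i, x ≠ Sum.inl (Sum.inl i)) : Bad N (cc A u B t N) x := by
  have hs : ∀ (k : ℕ) (y x : (ι ⊕ Unit) ⊕ (κ ⊕ Unit)),
      (cc A u B t N ^ k) y x ≤ ∑ l, (cc A u B t N ^ k) l x := fun k y x =>
    Finset.single_le_sum (f := fun l => (cc A u B t N ^ k) l x) (fun _ _ => Nat.zero_le _)
      (Finset.mem_univ y)
  rw [bad_iff]
  rcases x with (i | x) | (j | x)
  · exact absurd rfl (hx i)
  · refine ⟨1, fun k => ?_⟩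
    rw [one_mul]
    refine le_trans (le_of_eq ?_) (hs k (Sum.inl (Sum.inr ())) _)
    rw [cc_pow, fromBlocks_apply₁₁]
    exact (ex_pow_N A u N k).symm
  · refine ⟨N, fun k => ?_⟩
    cases k with
    | zero =>
      rw [pow_zero]
      have h1 := hs 0 (Sum.inr (Sum.inl j)) (Sum.inr (Sum.inl j))
      rw [pow_zero, Matrix.one_apply_eq] at h1
      rw [pow_zero]
      nlinarith
    | succ k =>
      have h1 := hs (k + 1) (Sum.inr (Sum.inr ())) (Sum.inr (Sum.inl j))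
      have h2 : (cc A u B t N ^ (k + 1)) (Sum.inr (Sum.inr ())) (Sum.inr (Sum.inl j)) =
          (ex B t N ^ (k + 1)) (Sum.inl j) (Sum.inr ()) := by
        rw [cc_pow, fromBlocks_apply₂₂, ← Matrix.transpose_pow]
        rfl
      rw [h2] at h1
      have h3 := ex_pow_u B t N k j
      have h4 : N ^ k ≤ t j * N ^ k := Nat.le_mul_of_pos_left _ (ht j)
      rw [pow_succ']
      exact Nat.mul_le_mul_left _ (h4.trans (h3.trans h1))
  · refine ⟨1, fun k => ?_⟩
    rw [one_mul]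
    refine le_trans (le_of_eq ?_) (hs k (Sum.inr (Sum.inr ())) _)
    rw [cc_pow, fromBlocks_apply₂₂, ← Matrix.transpose_pow]
    exact (ex_pow_N B t N k).symm

/-- the part of the matrix of the reduction is `A` -/
theorem el_part {A : Matrix ι ι ℕ} {u : ι → ℕ} {B : Matrix κ κ ℕ} {t : κ → ℕ} {N : ℕ}
    (hN : 0 < N) (hA : ∀ i, ∑ j, A i j < N) (ht : ∀ j, 0 < t j) :
    El A (gd N (cc A u B t N)) := by
  let g : ι → GI N (cc A u B t N) := fun i => ⟨Sum.inl (Sum.inl i), not_bad hN hA i⟩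
  have hg : Function.Bijective g := by
    constructor
    · intro i j hij
      have h1 := congrArg Subtype.val hij
      exact Sum.inl_injective (Sum.inl_injective h1)
    · rintro ⟨x, hx⟩
      by_contra hc
      push Not at hc
      refine hx (bad_rest hN ht x ?_)
      intro i hi
      exact hc i (Subtype.ext hi.symm)
  have h1 := El.of_equiv (Equiv.ofBijective g hg) (gd N (cc A u B t N))
  exact h1

/-- the part of `ex` is `A` -/
theorem el_part' {A : Matrix ι ι ℕ} {u : ι → ℕ} {N : ℕ}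
    (hN : 0 < N) (hA : ∀ i, ∑ j, A i j < N) : El A (gd N (ex A u N)) := by
  have h1 : ∀ i, ¬ Bad N (ex A u N) (Sum.inl i) := by
    intro i
    rw [bad_iff]
    rintro ⟨c, hc⟩
    refine not_growth A N hN hA i c fun k => (hc k).trans (le_of_eq ?_)
    congr 1
    rw [Fintype.sum_sum_type]
    simp only [ex_pow_in]
    have h2 : ∑ x : Unit, (ex A u N ^ k) (Sum.inr x) (Sum.inl i) = 0 :=
      Finset.sum_eq_zero fun x _ => ex_pow_out A u N k i
    rw [h2, add_zero]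
  let g : ι → GI N (ex A u N) := fun i => ⟨Sum.inl i, h1 i⟩
  have hg : Function.Bijective g := by
    constructor
    · intro i j hij
      have h1 := congrArg Subtype.val hij
      exact Sum.inl_injective h1
    · rintro ⟨x, hx⟩
      rcases x with x | x
      · exact ⟨x, rfl⟩
      · exfalso
        apply hx
        rw [bad_iff]
        refine ⟨1, fun k => ?_⟩
        rw [one_mul]
        refine le_trans (le_of_eq (ex_pow_N A u N k).symm) ?_
        exact Finset.single_le_sum (f := fun l => (ex A u N ^ k) l (Sum.inr x))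
          (fun _ _ => Nat.zero_le _) (Finset.mem_univ (Sum.inr ()))
  have h2 := El.of_equiv (Equiv.ofBijective g hg) (gd N (ex A u N))
  exact h2

end parts

end Pool.Agent.Q133.TR
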