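import Pool.Agent.Q133.TR.Canon
import Pool.Agent.Q133.TR.Reflect

set_option autoImplicit false

/-!
Strong shift equivalence of `A` and `B` as strong shift equivalence of one matrix and its transpose.
-/

namespace Pool.Agent.Q133.TR

open Pool.Agent.Q324.SC Pool.Agent.Q324.SC.Mat Matrix

section tg

variable {ι κ μ : Type} [Fintype ι] [Fintype κ] [Fintype μ]

theorem dsum_tg {M : Matrix ι ι ℕ} {N : Matrix κ κ ℕ} (h : Relation.TransGen Elem (ob M) (ob N))
    (P : Matrix μ μ ℕ) :
    Relation.TransGen Elem (ob (fromBlocks M 0 0 P)) (ob (fromBlocks N 0 0 P)) := by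
  have h1 : Relation.TransGen Elem (ob (fromBlocks (ob M).2 0 0 P))
      (ob (fromBlocks (ob N).2 0 0 P)) :=
    h.lift (fun X : Obj => ob (fromBlocks X.2 0 0 P)) (fun X Y h => by
      have h2 : El X.2 Y.2 := h
      exact (h2.dsum P).elem)
  exact (tg_symm ((el_ob M).dsum P).tg).trans (h1.trans ((el_ob N).dsum P).tg)

theorem transpose_tg {M : Matrix ι ι ℕ} {N : Matrix κ κ ℕ}
    (h : Relation.TransGen Elem (ob M) (ob N)) : Relation.TransGen Elem (ob Mᵀ) (ob Nᵀ) := by
  have h1 : Relation.TransGen Elem (ob (ob M).2ᵀ) (ob (ob N).2ᵀ) :=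
    h.lift (fun X : Obj => ob X.2ᵀ) (fun X Y h => by
      have h2 : El X.2 Y.2 := h
      exact h2.transpose.elem)
  exact (tg_symm (el_ob M).transpose.tg).trans (h1.trans (el_ob N).transpose.tg)

theorem gd_tg (K : ℕ) {M : Matrix ι ι ℕ} {N : Matrix κ κ ℕ}
    (h : Relation.TransGen Elem (ob M) (ob N)) :
    Relation.TransGen Elem (ob (gd K M)) (ob (gd K N)) :=
  (tg_symm (el_gd K (el_ob M)).tg).trans ((tg_gd K h).trans (el_gd K (el_ob N)).tg)

theorem cc_swap (A : Matrix ι ι ℕ) (u : ι → ℕ) (B : Matrix κ κ ℕ) (t : κ → ℕ) (N : ℕ) :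
    El (cc A u B t N)ᵀ (cc B t A u N) := by
  unfold cc
  rw [fromBlocks_transpose, transpose_transpose, transpose_zero, transpose_zero]
  exact El.swap _ _

end tg

/-- `A`, connected by `N - (row sum)` edges to the full shift on `N` symbols -/
def En {ι : Type} [Fintype ι] (N : ℕ) (A : Matrix ι ι ℕ) : Matrix (ι ⊕ Unit) (ι ⊕ Unit) ℕ :=
  fromBlocks A (of fun i _ => N - ∑ j, A i j) 0 (of fun _ _ => N)

/-- strong shift equivalence of matrices over any finite index sets -/
def Sim {ι κ : Type} [Fintype ι] [Fintype κ] (M : Matrix ι ι ℕ) (M' : Matrix κ κ ℕ) : Prop :=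
  Relation.TransGen Elem (ob M) (ob M')

theorem sim_obj {n m : ℕ} (A : Matrix (Fin n) (Fin n) ℕ) (B : Matrix (Fin m) (Fin m) ℕ) :
    Sim A B ↔ Relation.TransGen Elem ⟨n, A⟩ ⟨m, B⟩ :=
  ⟨fun h => (tg_symm (ob_tg ⟨n, A⟩)).trans (h.trans (ob_tg ⟨m, B⟩)),
    fun h => (ob_tg ⟨n, A⟩).trans (h.trans (tg_symm (ob_tg ⟨m, B⟩)))⟩

section main

variable {ι κ : Type} [Fintype ι] [Fintype κ]

theorem En_eq (N : ℕ) (A : Matrix ι ι ℕ) : En N A = ex A (fun i => N - ∑ j, A i j) N := rfl

theorem good_one [DecidableEq ι] {A : Matrix ι ι ℕ} {N : ℕ} (hA : ∀ i, ∑ j, A i j < N) :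
    Good A N (fun _ => 1) (fun i => N - ∑ j, A i j) := by
  refine ⟨fun i => ?_, fun i _ => by have := hA i; omega, 0, fun i hi => absurd hi (by simp)⟩
  have h1 : (A *ᵥ fun _ => 1) i = ∑ j, A i j := by simp [mulVec, dotProduct]
  have := hA i
  rw [h1]
  omega

theorem En_of {A : Matrix ι ι ℕ} {B : Matrix κ κ ℕ} {N : ℕ} (hN : 0 < N)
    (hA : ∀ i, ∑ j, A i j < N) (hB : ∀ i, ∑ j, B i j < N) (h : Sim A B) :
    Sim (En N A) (En N B) := by
  classical
  -- from `A` to the object
  obtain ⟨w0, u0, hg0, h0⟩ := one (el_ob A).symm (fun _ => 1) _ (good_one hA)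
  obtain ⟨w1, u1, hg1, h1⟩ := chain h w0 u0 hg0
  obtain ⟨w2, u2, hg2, h2⟩ := one (el_ob B) w1 u1 hg1
  have h3 : Relation.TransGen Elem (ob (ex B u2 N)) (ob (ex B (fun i => N - ∑ j, B i j) N)) :=
    canon hN hg2 (good_one hB)
  exact h0.trans (h1.trans (h2.trans h3))

theorem En_iff {A : Matrix ι ι ℕ} {B : Matrix κ κ ℕ} {N : ℕ} (hN : 0 < N)
    (hA : ∀ i, ∑ j, A i j < N) (hB : ∀ i, ∑ j, B i j < N) :
    Sim A B ↔ Sim (En N A) (En N B) := by
  refine ⟨En_of hN hA hB, fun h => ?_⟩
  exact (el_part' hN hA).tg.trans ((gd_tg N h).trans (tg_symm (el_part' hN hB).tg))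

theorem main_iff {A : Matrix ι ι ℕ} {B : Matrix κ κ ℕ} {N : ℕ} (hN : 0 < N)
    (hA : ∀ i, ∑ j, A i j < N) (hB : ∀ i, ∑ j, B i j < N) :
    Sim A B ↔ Sim (fromBlocks (En N A) 0 0 (En N B)ᵀ) (fromBlocks (En N A) 0 0 (En N B)ᵀ)ᵀ := by
  have hu0 : ∀ i, 0 < N - ∑ j, A i j := fun i => by
    have := hA i
    omega
  have ht0 : ∀ i, 0 < N - ∑ j, B i j := fun i => by
    have := hB i
    omega
  constructor
  · intro h
    have h3 := En_of hN hA hB h
    have h4 := dsum_tg h3 (En N B)ᵀ
    have h6 := dsum_tg (tg_symm (transpose_tg h3)) (En N B)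
    have e1 := El.swap (En N B) (En N B)ᵀ
    have e2 := El.swap (En N A)ᵀ (En N B)
    have e3 := cc_swap A (fun i => N - ∑ j, A i j) B (fun i => N - ∑ j, B i j) N
    exact h4.trans ((e1.tg.trans (h6.trans e2.tg)).trans (tg_symm e3.tg))
  · intro h
    have e3 := cc_swap A (fun i => N - ∑ j, A i j) B (fun i => N - ∑ j, B i j) N
    have h1 := h.trans e3.tg
    have h2 := gd_tg N h1
    exact (el_part hN hA ht0).tg.trans (h2.trans (tg_symm (el_part hN hB hu0).tg))

end main

/-! ### lists -/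

/-- row sum -/
def rs (L : List (List ℕ)) (i : ℕ) : ℕ :=
  ((List.range L.length).map fun j => (L.getD i []).getD j 0).sum

/-- the size of the dominating component -/
def nn (p : List (List ℕ) × List (List ℕ)) : ℕ := 2 * (se p.1 + se p.2 + 1)

/-- entries of `ex` -/
def fx (L : List (List ℕ)) (N i j : ℕ) : ℕ :=
  bif decide (i + 1 ≤ L.length) then
    (bif decide (j + 1 ≤ L.length) then (L.getD i []).getD j 0 else N - rs L i)
  else (bif decide (j + 1 ≤ L.length) then 0 else N)

/-- entries of `cc` -/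
def fc (p : List (List ℕ) × List (List ℕ)) (i j : ℕ) : ℕ :=
  bif decide (i + 1 ≤ p.1.length + 1) then
    (bif decide (j + 1 ≤ p.1.length + 1) then fx p.1 (nn p) i j else 0)
  else (bif decide (j + 1 ≤ p.1.length + 1) then 0 else
    fx p.2 (nn p) (j - (p.1.length + 1)) (i - (p.1.length + 1)))

/-- the reduction -/
def red (p : List (List ℕ) × List (List ℕ)) : List (List ℕ) :=
  lst (fc p) (p.1.length + 1 + (p.2.length + 1))

/-- the transposed object -/
def tr (X : Obj) : Obj := ⟨X.1, X.2ᵀ⟩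

/-- the matrix of the list is strong shift equivalent to its transpose -/
def Rev (L : List (List ℕ)) : Prop := Relation.TransGen Elem (mk L) (tr (mk L))

theorem list_sum_range (f : ℕ → ℕ) : ∀ n : ℕ, ((List.range n).map f).sum = ∑ j : Fin n, f j := by
  intro n
  induction n with
  | zero => simp
  | succ n ih =>
    rw [List.range_succ, List.map_append, List.sum_append, ih, Fin.sum_univ_castSucc]
    simp

theorem rs_eq (L : List (List ℕ)) (i : Fin L.length) : rs L i = ∑ j, (mk L).2 i j :=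
  list_sum_range (fun j => (L.getD i []).getD j 0) L.length

theorem row_le (L : List (List ℕ)) (i : Fin L.length) : ∑ j, (mk L).2 i j ≤ se L := by
  have h1 : ∀ (l : List ℕ) (n : ℕ), ∑ j : Fin n, l.getD j 0 ≤ l.sum := by
    intro l
    induction l with
    | nil => intro n; simp
    | cons a l ih =>
      intro n
      cases n with
      | zero => simp
      | succ n =>
        rw [Fin.sum_univ_succ, List.sum_cons]
        have := ih n
        simpa using this
  have h2 : ∑ j, (mk L).2 i j ≤ (L.getD i []).sum := h1 _ _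
  refine h2.trans ?_
  rw [List.getD_eq_getElem _ _ i.2]
  exact List.le_sum_of_mem (List.mem_map.2 ⟨_, List.getElem_mem i.2, rfl⟩)

/-- indices of `ex` -/
def ge (n : ℕ) : Fin n ⊕ Unit ≃ Fin (n + 1) :=
  (Equiv.sumCongr (Equiv.refl _) (finOneEquiv.symm : Unit ≃ Fin 1)).trans finSumFinEquiv

theorem ge_inl (n : ℕ) (i : Fin n) : (ge n (Sum.inl i) : ℕ) = i := by
  simp [ge]

theorem ge_inr (n : ℕ) (x : Unit) : (ge n (Sum.inr x) : ℕ) = n := by
  simp [ge]

/-- indices of `cc` -/
def gc (n m : ℕ) : (Fin n ⊕ Unit) ⊕ (Fin m ⊕ Unit) ≃ Fin (n + 1 + (m + 1)) :=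
  (Equiv.sumCongr (ge n) (ge m)).trans finSumFinEquiv

theorem gc_inl (n m : ℕ) (x : Fin n ⊕ Unit) : (gc n m (Sum.inl x) : ℕ) = ge n x := by
  simp [gc]

theorem gc_inr (n m : ℕ) (x : Fin m ⊕ Unit) : (gc n m (Sum.inr x) : ℕ) = n + 1 + ge m x := by
  simp [gc]

theorem fx_eq (L : List (List ℕ)) (N : ℕ) (x y : Fin L.length ⊕ Unit) :
    fx L N (ge _ x) (ge _ y) = ex (mk L).2 (fun i => N - ∑ j, (mk L).2 i j) N x y := by
  unfold fx
  rcases x with x | x <;> rcases y with y | y
  · rw [ge_inl, ge_inl]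
    have h1 : decide ((x : ℕ) + 1 ≤ L.length) = true := by rw [decide_eq_true_eq]; omega
    have h2 : decide ((y : ℕ) + 1 ≤ L.length) = true := by rw [decide_eq_true_eq]; omega
    rw [h1, h2]
    rfl
  · rw [ge_inl, ge_inr]
    have h1 : decide ((x : ℕ) + 1 ≤ L.length) = true := by rw [decide_eq_true_eq]; omega
    have h2 : decide (L.length + 1 ≤ L.length) = false := by rw [decide_eq_false_iff_not]; omega
    rw [h1, h2, rs_eq]
    rfl
  · rw [ge_inr, ge_inl]
    have h1 : decide (L.length + 1 ≤ L.length) = false := by rw [decide_eq_false_iff_not]; omega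
    have h2 : decide ((y : ℕ) + 1 ≤ L.length) = true := by rw [decide_eq_true_eq]; omega
    rw [h1, h2]
    rfl
  · rw [ge_inr]
    have h1 : decide (L.length + 1 ≤ L.length) = false := by rw [decide_eq_false_iff_not]; omega
    rw [h1]
    rfl

theorem fc_eq (p : List (List ℕ) × List (List ℕ))
    (x y : (Fin p.1.length ⊕ Unit) ⊕ (Fin p.2.length ⊕ Unit)) :
    fc p (gc _ _ x) (gc _ _ y) =
      cc (mk p.1).2 (fun i => nn p - ∑ j, (mk p.1).2 i j) (mk p.2).2
        (fun i => nn p - ∑ j, (mk p.2).2 i j) (nn p) x y := by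
  unfold fc
  rcases x with x | x <;> rcases y with y | y
  · rw [gc_inl, gc_inl]
    have h1 : decide ((ge _ x : ℕ) + 1 ≤ p.1.length + 1) = true := by
      rw [decide_eq_true_eq]; have := (ge _ x).2; omega
    have h2 : decide ((ge _ y : ℕ) + 1 ≤ p.1.length + 1) = true := by
      rw [decide_eq_true_eq]; have := (ge _ y).2; omega
    rw [h1, h2]
    exact fx_eq _ _ _ _
  · rw [gc_inl, gc_inr]
    have h1 : decide ((ge _ x : ℕ) + 1 ≤ p.1.length + 1) = true := by
      rw [decide_eq_true_eq]; have := (ge _ x).2; omega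
    have h2 : decide (p.1.length + 1 + (ge _ y : ℕ) + 1 ≤ p.1.length + 1) = false := by
      rw [decide_eq_false_iff_not]; omega
    rw [h1, h2]
    rfl
  · rw [gc_inr, gc_inl]
    have h1 : decide (p.1.length + 1 + (ge _ x : ℕ) + 1 ≤ p.1.length + 1) = false := by
      rw [decide_eq_false_iff_not]; omega
    have h2 : decide ((ge _ y : ℕ) + 1 ≤ p.1.length + 1) = true := by
      rw [decide_eq_true_eq]; have := (ge _ y).2; omega
    rw [h1, h2]
    rfl
  · rw [gc_inr, gc_inr]
    have h1 : decide (p.1.length + 1 + (ge _ x : ℕ) + 1 ≤ p.1.length + 1) = false := by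
      rw [decide_eq_false_iff_not]; omega
    have h2 : decide (p.1.length + 1 + (ge _ y : ℕ) + 1 ≤ p.1.length + 1) = false := by
      rw [decide_eq_false_iff_not]; omega
    rw [h1, h2, Nat.add_sub_cancel_left, Nat.add_sub_cancel_left]
    exact fx_eq _ _ _ _

theorem red_iff (p : List (List ℕ) × List (List ℕ)) : SSE p ↔ Rev (red p) := by
  obtain ⟨C, hC⟩ : ∃ C, C = cc (mk p.1).2 (fun i => nn p - ∑ j, (mk p.1).2 i j) (mk p.2).2
        (fun i => nn p - ∑ j, (mk p.2).2 i j) (nn p) := ⟨_, rfl⟩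
  have h1 : SSE p ↔ Relation.TransGen Elem (ob C) (ob Cᵀ) := by
    rw [hC]
    have h0 : SSE p ↔ Sim (mk p.1).2 (mk p.2).2 := (sim_obj _ _).symm
    rw [h0]
    exact main_iff (N := nn p) (by unfold nn; omega)
      (fun i => (row_le p.1 i).trans_lt (by unfold nn; omega))
      (fun i => (row_le p.2 i).trans_lt (by unfold nn; omega))
  have h2 : El C (corner (fc p) (p.1.length + 1 + (p.2.length + 1))).2 := by
    have h3 := El.of_equiv (gc p.1.length p.2.length)
      (corner (fc p) (p.1.length + 1 + (p.2.length + 1))).2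
    have h4 : (corner (fc p) (p.1.length + 1 + (p.2.length + 1))).2.submatrix
        (gc p.1.length p.2.length) (gc p.1.length p.2.length) = C := by
      ext x y
      rw [hC]
      exact fc_eq p x y
    rw [← h4]
    exact h3
  rw [h1]
  unfold Rev red
  rw [mk_lst]
  have h5 : Relation.TransGen Elem (ob C) (corner (fc p) (p.1.length + 1 + (p.2.length + 1))) :=
    h2.tg.trans (ob_tg _)
  have h6 : Relation.TransGen Elem (ob Cᵀ)
      (tr (corner (fc p) (p.1.length + 1 + (p.2.length + 1)))) :=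
    h2.transpose.tg.trans (ob_tg (tr (corner (fc p) (p.1.length + 1 + (p.2.length + 1)))))
  constructor
  · intro h
    exact (tg_symm h5).trans (h.trans h6)
  · intro h
    exact h5.trans (h.trans (tg_symm h6))

/-! ### computability -/

theorem rs_primrec {α : Type*} [Primcodable α] {L : α → List (List ℕ)} {i : α → ℕ}
    (hL : Primrec L) (hi : Primrec i) : Primrec (fun a => rs (L a) (i a)) := by
  unfold rs
  refine psum (pmap (by fun_prop) ?_)
  exact getDD_primrec (by fun_prop) (by fun_prop) (by fun_prop)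

theorem fx_primrec {α : Type*} [Primcodable α] {L : α → List (List ℕ)} {N i j : α → ℕ}
    (hL : Primrec L) (hN : Primrec N) (hi : Primrec i) (hj : Primrec j) :
    Primrec (fun a => fx (L a) (N a) (i a) (j a)) := by
  unfold fx
  have h1 := getDD_primrec hL hi hj
  have h2 := rs_primrec hL hi
  exact pcond (by fun_prop) (pcond (by fun_prop) h1 (psub hN h2))
    (pcond (by fun_prop) (by fun_prop) hN)

theorem nn_primrec : Primrec nn := by
  unfold nn
  have h1 : Primrec (fun x : List (List ℕ) × List (List ℕ) => se x.1) :=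
    se_primrec.comp (by fun_prop)
  have h2 : Primrec (fun x : List (List ℕ) × List (List ℕ) => se x.2) :=
    se_primrec.comp (by fun_prop)
  exact pmul (pconst 2) (padd (padd h1 h2) (pconst 1))

theorem fc_primrec {α : Type*} [Primcodable α] {p : α → List (List ℕ) × List (List ℕ)}
    {i j : α → ℕ} (hp : Primrec p) (hi : Primrec i) (hj : Primrec j) :
    Primrec (fun a => fc (p a) (i a) (j a)) := by
  unfold fc
  have hN : Primrec (fun a => nn (p a)) := nn_primrec.comp hp
  have h1 := fx_primrec (L := fun a => (p a).1) (by fun_prop) hN hi hj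
  have h2 := fx_primrec (L := fun a => (p a).2) (i := fun a => j a - ((p a).1.length + 1))
    (j := fun a => i a - ((p a).1.length + 1)) (by fun_prop) hN (by fun_prop) (by fun_prop)
  exact pcond (by fun_prop) (pcond (by fun_prop) h1 (by fun_prop))
    (pcond (by fun_prop) (by fun_prop) h2)

theorem red_primrec : Primrec red := by
  unfold red lst
  refine pmap (by fun_prop) (pmap (by fun_prop) ?_)
  exact fc_primrec (by fun_prop) (by fun_prop) (by fun_prop)

/-- the transposed list -/
def tl (L : List (List ℕ)) : List (List ℕ) :=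
  lst (fun i j => (L.getD j []).getD i 0) L.length

theorem tl_primrec : Primrec tl := by
  unfold tl lst
  refine pmap (by fun_prop) (pmap (by fun_prop) ?_)
  exact getDD_primrec (by fun_prop) (by fun_prop) (by fun_prop)

theorem rev_iff (L : List (List ℕ)) : Rev L ↔ SSE (L, tl L) := by
  unfold Rev SSE tl
  rw [mk_lst]
  rfl

end Pool.Agent.Q133.TR
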